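import Pool.Agent.R946.LF.Stm

/-! LF-A: elementary properties of `shiftDown` (helper656). -/

namespace Pool.Agent.R946.LF

open MeasureTheory ProbabilityTheory
open scoped ENNReal NNReal

lemma stmA_count_add (J : ℕ → Bool) (a r : ℕ) :
    Nat.count (fun y => J y = true) (a + r) ≤ Nat.count (fun y => J y = true) a + r := by
  induction r with
  | zero => simp
  | succ r ih =>
    rw [← Nat.add_assoc, Nat.count_succ]
    split_ifs <;> omega

lemma stmA_mono (J : ℕ → Bool) {a b : ℕ} (h : a ≤ b) :
    Nat.count (fun y => J y = true) a ≤ Nat.count (fun y => J y = true) b :=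
  Nat.count_monotone _ h

lemma stmA_succ_true (J : ℕ → Bool) {a : ℕ} (h : J a = true) :
    Nat.count (fun y => J y = true) (a + 1) = Nat.count (fun y => J y = true) a + 1 := by
  rw [Nat.count_succ, if_pos h]

lemma stmA_succ_false (J : ℕ → Bool) {a : ℕ} (h : J a = false) :
    Nat.count (fun y => J y = true) (a + 1) = Nat.count (fun y => J y = true) a := by
  rw [Nat.count_succ, if_neg (by simp [h]), Nat.add_zero]

lemma stmA_lt (J : ℕ → Bool) {y y' : ℕ} (h : J y = false) (h' : J y' = false) (hy : y < y') :
    shiftDown J y < shiftDown J y' := by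
  unfold shiftDown
  rw [if_neg (by simp [h]), if_neg (by simp [h'])]
  have h1 := stmA_succ_false J h
  have h2 := stmA_count_add J (y + 1) (y' - (y + 1))
  rw [Nat.add_sub_cancel' hy] at h2
  have h3 : Nat.count (fun y => J y = true) y ≤ y := Nat.count_le _
  have h4 := stmA_mono J hy.le
  omega

lemma stmA_ne (J : ℕ → Bool) {y y' : ℕ} (h : J y = false) (h' : J y' = true) :
    shiftDown J y ≠ shiftDown J y' := by
  unfold shiftDown
  rw [if_neg (by simp [h]), if_pos h']
  set mn := sInf {y | J y = true} with hmn
  have hm : J mn = true := by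
    have : mn ∈ {y | J y = true} := Nat.sInf_mem ⟨y', h'⟩
    exact this
  have hlt : ∀ z < mn, ¬ J z = true := fun z hz hJ => by
    have := Nat.notMem_of_lt_sInf (hmn ▸ hz)
    exact this hJ
  have h0 : Nat.count (fun y => J y = true) mn = 0 := by
    rw [Nat.count_iff_forall_not]
    intro n hn
    exact hlt n hn
  rcases lt_trichotomy y mn with hy | hy | hy
  · omega
  · rw [hy, hm] at h
    exact absurd h (by simp)
  · have h1 := stmA_succ_true J hm
    have h2 := stmA_count_add J (mn + 1) (y - (mn + 1))
    rw [Nat.add_sub_cancel' hy] at h2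
    have h4 := stmA_mono J (show mn + 1 ≤ y from hy)
    omega

theorem stmA : StmA := by
  refine ⟨?_, ?_, ?_, ?_, ?_⟩
  · intro J x y hR hyx
    unfold Rel at hR
    unfold shiftDown
    split_ifs with hJ
    · apply le_antisymm
      · exact Nat.sInf_le hJ
      · by_contra hlt
        push Not at hlt
        have hmem : sInf {y | J y = true} ∈ {y | J y = true} := Nat.sInf_mem ⟨y, hJ⟩
        have h1 := stmA_succ_true J hmem
        have h2 := stmA_mono J (show sInf {y | J y = true} + 1 ≤ y from hlt)
        have h3 := stmA_succ_true J hJ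
        have h4 := stmA_mono J (show y + 1 ≤ x + 1 by omega)
        omega
    · have h4 := stmA_mono J (show y ≤ x + 1 by omega)
      omega
  · intro J y
    unfold shiftDown
    split_ifs with hJ
    · exact Nat.sInf_le hJ
    · omega
  · intro J y y' hne he
    have hb : J y = true ∧ J y' = true := by
      by_cases hy : J y = true
      · by_cases hy' : J y' = true
        · exact ⟨hy, hy'⟩
        · exact absurd he.symm (stmA_ne J (by simpa using hy') hy)
      · by_cases hy' : J y' = true
        · exact absurd he (stmA_ne J (by simpa using hy) hy')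
        · exfalso
          rcases lt_or_gt_of_ne hne with hl | hl
          · have := stmA_lt J (by simpa using hy) (by simpa using hy') hl
            omega
          · have := stmA_lt J (by simpa using hy') (by simpa using hy) hl
            omega
    refine ⟨hb.1, hb.2, ?_, ?_⟩
    · unfold shiftDown
      rw [if_pos hb.1]
      have hmem : sInf {y | J y = true} ∈ {y | J y = true} := Nat.sInf_mem ⟨y, hb.1⟩
      exact hmem
    · intro z hz
      unfold shiftDown at hz
      rw [if_pos hb.1] at hz
      have := Nat.notMem_of_lt_sInf hz
      simpa using this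
  · intro J y h
    unfold shiftDown
    rw [if_pos (h y le_rfl)]
    have h0 : (0 : ℕ) ∈ {y | J y = true} := h 0 (Nat.zero_le _)
    exact Nat.le_zero.1 (Nat.sInf_le h0)
  · intro J
    unfold shiftDown
    split_ifs with hJ
    · exact Nat.le_zero.1 (Nat.sInf_le hJ)
    · omega

end Pool.Agent.R946.LF
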