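import Pool.Agent.R946.LF.Stm

/-!
Assembly, with the pieces as hypotheses.
-/

namespace Pool.Agent.R946.LF

open MeasureTheory ProbabilityTheory Filter
open scoped ENNReal NNReal Topology

open Classical in
/-- The number of levels among `0, …, n-1` which at time `t` carry the initial type of level
`i`. -/
noncomputable def cnt (w : Path) (u : ℕ → ℝ) (t : ℝ) (i n : ℕ) : ℕ :=
  ((Finset.range n).filter fun x => ∃ y, Anc w t x y ∧ u y = u i).card

theorem sig_le {c v : ℕ → ℝ} {Ω : Type} [m0 : MeasurableSpace Ω] {P : Measure Ω}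
    (Z : Noise c v P) (S : Set Idx) : Z.sig S ≤ m0 := by
  unfold Noise.sig
  exact iSup₂_le fun s _ => (Z.meas s).comap_le

theorem cnt_tendsto (w : Path) (u : ℕ → ℝ) (hu : Function.Injective u) (t : ℝ)
    (h : ∀ x x', Anc w t x 1 → Anc w t x' 1 → x = x') :
    Tendsto (fun n : ℕ => (cnt w u t 1 n : ℝ) / n) atTop (𝓝 0) := by
  classical
  have hle : ∀ n, (cnt w u t 1 n : ℝ) ≤ 1 := by
    intro n
    have : cnt w u t 1 n ≤ 1 := by
      unfold cnt
      rw [Finset.card_le_one]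
      intro a ha b hb
      simp only [Finset.mem_filter, Finset.mem_range] at ha hb
      obtain ⟨_, y, hy, hy1⟩ := ha
      obtain ⟨_, z, hz, hz1⟩ := hb
      have e1 := hu hy1
      have e2 := hu hz1
      subst e1 e2
      exact h a b hy hz
    exact_mod_cast this
  refine squeeze_zero (fun n => by positivity) (g := fun n : ℕ => 1 / (n : ℝ)) ?_
    tendsto_one_div_atTop_nhds_zero_nat
  intro n
  exact div_le_div_of_nonneg_right (hle n) (Nat.cast_nonneg n)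

theorem pp_mem {c v : ℕ → ℝ} (hc : ∀ k, 0 < c k) (hv : ∀ k, 0 < v k ∧ v k < 1) (m y : ℕ) :
    0 < pp c v m y ∧ pp c v m y < 1 := by
  unfold pp
  have h1 : Real.exp (-c m) < 1 := by
    rw [Real.exp_lt_one_iff]
    have := hc m
    linarith
  have h2 : 0 < Real.exp (-c m) := Real.exp_pos _
  have h3 : 0 < v m ^ (y + 1) := pow_pos (hv m).1 _
  have h4 : v m ^ (y + 1) ≤ 1 := pow_le_one₀ (hv m).1.le (hv m).2.le
  constructor
  · exact mul_pos (by linarith) h3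
  · calc (1 - Real.exp (-c m)) * v m ^ (y + 1) ≤ (1 - Real.exp (-c m)) * 1 :=
          mul_le_mul_of_nonneg_left h4 (by linarith)
      _ < 1 := by linarith

theorem bad_prob (hB1 : StmB1) (hB3 : StmB3) (hC : StmC) (hD : StmD) (hE : StmE) (hF : StmF)
    (hJ : StmJ) (c v : ℕ → ℝ) (m : ℕ → ℕ) (hc : ∀ k, 0 < c k) (hv : ∀ k, 0 < v k ∧ v k < 1)
    (hsum : ∑' (k : ℕ) (y : ℕ), ENNReal.ofReal
      (c k * v k * (v k * (1 - v k) ^ (y + 1) / pp c v (m (y + 1)) (y + 1))) < 1)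
    (Ω : Type) [MeasurableSpace Ω] (P : Measure Ω) [IsProbabilityMeasure P] (Z : Noise c v P) :
    MeasurableSet (⋃ a : Atom, ⋃ x : ℕ, {ω | Bad (Z.W ω) a x}) ∧
    P (⋃ a : Atom, ⋃ x : ℕ, {ω | Bad (Z.W ω) a x}) < 1 := by
  have hm : ∀ a x, MeasurableSet {ω | Bad (Z.W ω) a x} := fun a x =>
    (hD c v hv Ω P Z a x (hC c v Ω P Z a x)).1
  have hP : ∀ a x, P {ω | Bad (Z.W ω) a x} =
      ENNReal.ofReal (v a.1 * (1 - v a.1) ^ x) * P {ω | pres (Z.W ω) a ∧ G (Z.W ω) a x} :=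
    fun a x => (hD c v hv Ω P Z a x (hC c v Ω P Z a x)).2
  have hmG : ∀ a x, MeasurableSet {ω | pres (Z.W ω) a ∧ G (Z.W ω) a x} := fun a x =>
    sig_le Z _ _ (hC c v Ω P Z a x)
  obtain ⟨hJ1, hJ2, hJ3⟩ := hJ c v hc Ω P Z
  refine ⟨MeasurableSet.iUnion fun a => MeasurableSet.iUnion fun x => hm a x, ?_⟩
  refine lt_of_le_of_lt ?_ hsum
  have hG0 : ∀ w a, ¬ G w a 0 := by
    rintro w a ⟨l, _, h, _⟩
    have := hB1.2.2.2.1 w l 0
    omega
  have key := hF c v (fun y => pp c v (m y) y) hc hv (fun y => pp_mem hc hv (m y) y)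
    (fun k i j => P {ω | pres (Z.W ω) (k, i, j)})
    (fun k i j x => P {ω | pres (Z.W ω) (k, i, j) ∧ G (Z.W ω) (k, i, j) x})
    hJ2 (fun k i j => by simp [hG0])
    (fun k i j y => hE c v hc hv Ω P Z (k, i, j) (m y) y (fun x => hmG _ x)
      (fun ω x x' h h' => hB1.2.2.2.2 _ _ _ _ h h')
      (fun ω b x hb hbi hz => hB3 (Z.W ω) (fun a => Z.V_mem a ω) _ b x hb hbi hz))
  refine le_trans ?_ key
  calc P (⋃ a : Atom, ⋃ x : ℕ, {ω | Bad (Z.W ω) a x})
      ≤ ∑' a : Atom, P (⋃ x : ℕ, {ω | Bad (Z.W ω) a x}) := measure_iUnion_le _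
    _ ≤ ∑' a : Atom, ∑' x : ℕ, P {ω | Bad (Z.W ω) a x} :=
        ENNReal.tsum_le_tsum fun a => measure_iUnion_le _
    _ = _ := by
        rw [ENNReal.tsum_prod']
        refine tsum_congr fun k => ?_
        rw [ENNReal.tsum_prod']
        refine tsum_congr fun i => tsum_congr fun j => tsum_congr fun x => ?_
        rw [hP]

/-- The main statement, from the pieces. -/
theorem main (hB1 : StmB1) (hB2 : StmB2) (hB3 : StmB3) (hC : StmC) (hD : StmD) (hE : StmE)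
    (hF : StmF) (hG : StmG) (hH : StmH) (hI : StmI) (hJ : StmJ) :
    ∃ c v : ℕ → ℝ, (∀ k, 0 < c k) ∧ (∀ k, 0 < v k ∧ v k < 1) ∧ Function.Injective v ∧
      Summable (fun k => c k * v k) ∧ ¬ Summable c ∧
      ¬ Summable (fun k => c k * (-(v k * Real.log (v k)))) ∧
      (∃ (Ω : Type) (_ : MeasurableSpace Ω) (P : Measure Ω) (_ : IsProbabilityMeasure P),
        Nonempty (Noise c v P)) ∧
      ∀ (Ω : Type) [MeasurableSpace Ω] (P : Measure Ω) [IsProbabilityMeasure P]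
        (Z : Noise c v P),
        (∀ᵐ ω ∂P, Function.Injective (Z.U ω) ∧ ∀ (t : ℝ) (x : ℕ), ∃! y, Anc (Z.W ω) t x y) ∧
        ∃ E : Set Ω, MeasurableSet E ∧ 0 < P E ∧ ∀ ω ∈ E, ∀ t : ℝ,
          Tendsto (fun n : ℕ => (cnt (Z.W ω) (Z.U ω) t 1 n : ℝ) / n) atTop (𝓝 0) := by
  obtain ⟨c, v, m, hc, hv, hinj, h1, h2, h3, h4⟩ := hG
  refine ⟨c, v, hc, hv, hinj, h1, h2, h3, hI c v hc hv, ?_⟩
  intro Ω _ P _ Z
  obtain ⟨hJ1, hJ2, hJ3⟩ := hJ c v hc Ω P Z
  have hH' := hH c v hc hv h1 Ω P Z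
  constructor
  · filter_upwards [hJ1, hH'] with ω hω hω'
    refine ⟨hω, fun t x => ?_⟩
    obtain ⟨l, hl⟩ := hB1.2.1 (Z.W ω) (fun b => time (Z.W ω) b ≤ t) x (hω' t x)
    refine ⟨back (Z.W ω) l x, ⟨l, hl, rfl⟩, ?_⟩
    rintro y ⟨l', hl', rfl⟩
    rw [hB1.1 _ _ _ _ _ hl' hl]
  · obtain ⟨hbm, hbp⟩ := bad_prob hB1 hB3 hC hD hE hF hJ c v m hc hv h4 Ω P Z
    set Bd := ⋃ a : Atom, ⋃ x : ℕ, {ω | Bad (Z.W ω) a x} with hBd
    have h0 : P {ω | ¬ Function.Injective (Z.U ω)} = 0 := hJ1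
    obtain ⟨K, hK1, hK2, hK3⟩ := exists_measurable_superset_of_null h0
    refine ⟨(Bd ∪ K)ᶜ, (hbm.union hK2).compl, ?_, ?_⟩
    · rw [prob_compl_eq_one_sub (hbm.union hK2)]
      have : P (Bd ∪ K) < 1 := by
        refine lt_of_le_of_lt (measure_union_le _ _) ?_
        rw [hK3, add_zero]
        exact hbp
      exact tsub_pos_of_lt this
    · intro ω hω t
      have hω1 : ω ∉ Bd := fun h => hω (Or.inl h)
      have hω2 : ω ∉ K := fun h => hω (Or.inr h)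
      have hinj' : Function.Injective (Z.U ω) := by
        by_contra h
        exact hω2 (hK1 h)
      refine cnt_tendsto _ _ hinj' t ?_
      intro x x' hx hx'
      by_contra hne
      obtain ⟨a, y, hay⟩ := hB2 (Z.W ω) t x x' hne hx hx'
      apply hω1
      rw [hBd]
      simp only [Set.mem_iUnion, Set.mem_setOf_eq]
      exact ⟨a, y, hay⟩

end Pool.Agent.R946.LF
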