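import Pool.Agent.R946.LF.Stm

set_option autoImplicit false

namespace Pool.Agent.R946.LF.PB1

open Pool.Agent.R946.LF

theorem before_irrefl (w : Path) (a : Atom) : ¬ before w a a := by
  rintro (h | ⟨_, h⟩)
  · exact lt_irrefl _ h
  · exact lt_irrefl _ h

theorem before_trans (w : Path) {a b c : Atom} (h1 : before w a b) (h2 : before w b c) :
    before w a c := by
  rcases h1 with h1 | ⟨h1, h1'⟩ <;> rcases h2 with h2 | ⟨h2, h2'⟩
  · exact Or.inl (h1.trans h2)
  · exact Or.inl (h2 ▸ h1)
  · exact Or.inl (h1 ▸ h2)
  · exact Or.inr ⟨h1.trans h2, h1'.trans h2'⟩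

theorem before_asymm (w : Path) {a b : Atom} (h1 : before w a b) : ¬ before w b a :=
  fun h2 => before_irrefl w a (before_trans w h1 h2)

theorem before_tri (w : Path) (a b : Atom) : before w a b ∨ a = b ∨ before w b a := by
  rcases lt_trichotomy (time w a) (time w b) with h | h | h
  · exact Or.inl (Or.inl h)
  · rcases lt_trichotomy (Encodable.encode a) (Encodable.encode b) with h' | h' | h'
    · exact Or.inl (Or.inr ⟨h, h'⟩)
    · exact Or.inr (Or.inl (Encodable.encode_injective h'))
    · exact Or.inr (Or.inr (Or.inr ⟨h.symm, h'⟩))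
  · exact Or.inr (Or.inr (Or.inl h))

theorem nodup_of (w : Path) {l : List Atom} (h : l.Pairwise (before w)) : l.Nodup := by
  refine List.Pairwise.imp (R := before w) (S := fun a b => a ≠ b) ?_ h
  rintro a b hab rfl
  exact before_irrefl w a hab

theorem uniq (w : Path) (S : Atom → Prop) (x : ℕ) (l l' : List Atom)
    (h : History w S x l) (h' : History w S x l') : l = l' := by
  have hp : l.Perm l' := by
    rw [List.perm_ext_iff_of_nodup (nodup_of w h.1) (nodup_of w h'.1)]
    intro b
    rw [h.2 b, h'.2 b]
  exact List.Perm.eq_of_pairwise (fun a b _ _ h1 h2 => absurd h2 (before_asymm w h1)) h.1 h'.1 hp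

theorem exSorted (w : Path) (s : Finset Atom) :
    ∃ l : List Atom, l.Pairwise (before w) ∧ ∀ b, b ∈ l ↔ b ∈ s := by
  classical
  induction s using Finset.induction_on with
  | empty => exact ⟨[], List.Pairwise.nil, by simp⟩
  | insert a s ha ih =>
    obtain ⟨l, hl, hm⟩ := ih
    refine ⟨l.filter (fun b => decide (before w b a)) ++
      a :: l.filter (fun b => decide (before w a b)), ?_, ?_⟩
    · rw [List.pairwise_append]
      refine ⟨hl.filter _, ?_, ?_⟩
      · rw [List.pairwise_cons]
        refine ⟨?_, hl.filter _⟩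
        intro b hb
        rw [List.mem_filter] at hb
        exact of_decide_eq_true hb.2
      · intro b hb c hc
        rw [List.mem_filter] at hb
        have hb2 : before w b a := of_decide_eq_true hb.2
        rcases List.mem_cons.1 hc with rfl | hc
        · exact hb2
        · rw [List.mem_filter] at hc
          exact before_trans w hb2 (of_decide_eq_true hc.2)
    · intro b
      rw [List.mem_append, List.mem_cons, List.mem_filter, List.mem_filter, Finset.mem_insert,
        decide_eq_true_iff, decide_eq_true_iff, hm]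
      constructor
      · rintro (h | h | h)
        · exact Or.inr h.1
        · exact Or.inl h
        · exact Or.inr h.1
      · rintro (h | h)
        · exact Or.inr (Or.inl h)
        · rcases before_tri w b a with h1 | h1 | h1
          · exact Or.inl ⟨h, h1⟩
          · exact Or.inr (Or.inl h1)
          · exact Or.inr (Or.inr ⟨h, h1⟩)

theorem exHist (w : Path) (S : Atom → Prop) (x : ℕ)
    (hf : {b | pres w b ∧ S b ∧ Rel (w.B b) x}.Finite) : ∃ l, History w S x l := by
  obtain ⟨l, hl, hm⟩ := exSorted w hf.toFinset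
  exact ⟨l, hl, fun b => by rw [hm, Set.Finite.mem_toFinset]; rfl⟩

theorem Rel_mono {J : ℕ → Bool} {x x' : ℕ} (h : x ≤ x') (hr : Rel J x) : Rel J x' := by
  unfold Rel at hr ⊢
  exact hr.trans (Nat.count_monotone _ (by omega))

theorem back_le (hA : StmA) (w : Path) (l : List Atom) (x : ℕ) : back w l x ≤ x := by
  induction l with
  | nil => exact le_refl _
  | cons b t ih => exact (hA.2.1 (w.B b) (back w t x)).trans ih

theorem back_filter (hA : StmA) (w : Path) (x : ℕ) (p : Atom → Bool)
    (hp : ∀ b, p b = false → ¬ Rel (w.B b) x) (l : List Atom) (y : ℕ) (hy : y ≤ x) :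
    back w (l.filter p) y = back w l y := by
  induction l with
  | nil => rfl
  | cons b t ih =>
    by_cases hb : p b = true
    · rw [List.filter_cons_of_pos hb]
      show shiftDown (w.B b) (back w (t.filter p) y) = shiftDown (w.B b) (back w t y)
      rw [ih]
    · rw [List.filter_cons_of_neg hb, ih]
      have hb' : p b = false := by simpa using hb
      show back w t y = shiftDown (w.B b) (back w t y)
      exact (hA.1 (w.B b) x (back w t y) (hp b hb') ((back_le hA w t y).trans hy)).symm

theorem restr (hA : StmA) (w : Path) (S : Atom → Prop) (x x' : ℕ) (l' : List Atom) (hx : x ≤ x')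
    (h' : History w S x' l') :
    ∃ l, History w S x l ∧ ∀ y ≤ x, back w l y = back w l' y := by
  classical
  refine ⟨l'.filter (fun b => decide (Rel (w.B b) x)), ⟨h'.1.filter _, ?_⟩, ?_⟩
  · intro b
    rw [List.mem_filter, decide_eq_true_iff, h'.2 b]
    constructor
    · rintro ⟨⟨h1, h2, _⟩, h4⟩
      exact ⟨h1, h2, h4⟩
    · rintro ⟨h1, h2, h4⟩
      exact ⟨⟨h1, h2, Rel_mono hx h4⟩, h4⟩
  · intro y hy
    exact back_filter hA w x _ (fun b hb => of_decide_eq_false hb) l' y hy

theorem G_lt_false (hA : StmA) (w : Path) (a : Atom) (x x' : ℕ) (h : G w a x) (h' : G w a x')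
    (hlt : x < x') : False := by
  obtain ⟨l, hl, hl1, _⟩ := h
  obtain ⟨l', hl', _, hmin⟩ := h'
  obtain ⟨l2, hl2, hag⟩ := restr hA w _ x x' l' hlt.le hl'
  have heq : l = l2 := uniq w _ x l l2 hl hl2
  have h1 : back w l' x = 1 := by rw [← hag x le_rfl, ← heq, hl1]
  exact hmin x hlt h1

theorem stmB1 (hA : StmA) : StmB1 := by
  refine ⟨uniq, exHist, restr hA, back_le hA, ?_⟩
  intro w a x x' h h'
  rcases lt_trichotomy x x' with hlt | heq | hlt
  · exact (G_lt_false hA w a x x' h h' hlt).elim
  · exact heq
  · exact (G_lt_false hA w a x' x h' h hlt).elim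

end Pool.Agent.R946.LF.PB1

theorem Pool.Agent.R946.LF.stmB1 (hA : Pool.Agent.R946.LF.StmA) : Pool.Agent.R946.LF.StmB1 :=
  Pool.Agent.R946.LF.PB1.stmB1 hA
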