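import Pool.Agent.R946.LF.Stm

/-!
Project LF (helper946, MP_dd3681_pr), piece B2 by helper744: two levels which descend from level `1` give a bad atom.
-/

set_option autoImplicit false

namespace Pool.Agent.R946.LF

lemma before_asymm (w : Path) (a b : Atom) (h : before w a b) (h' : before w b a) : False := by
  unfold before at h h'
  rcases h with h | ⟨h, h1⟩ <;> rcases h' with h' | ⟨h', h2⟩
  · linarith
  · linarith
  · linarith
  · omega

lemma time_le_of_before (w : Path) (a b : Atom) (h : before w a b) : time w a ≤ time w b := by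
  rcases h with h | ⟨h, _⟩
  · exact h.le
  · exact h.le

theorem stmB2_aux (hA : StmA) (hB : StmB1) (w : Path) (t : ℝ) (n : ℕ) (l' : List Atom)
    (hl' : History w (fun b => time w b ≤ t) n l') (l : List Atom) :
    ∀ r, l' = l ++ r → ∀ p p', p ≤ n → p' ≤ n → p ≠ p' → back w l p = 1 → back w l p' = 1 → ∃ a y, Bad w a y := by
  induction l using List.reverseRecOn with
  | nil =>
    intro r _ p p' _ _ hne h1 h2
    exact absurd ((show p = 1 from h1).trans (show p' = 1 from h2).symm) hne
  | append_singleton l1 a ih =>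
    intro r hr p p' hp hp' hne h1 h2
    have e : ∀ z, back w (l1 ++ [a]) z = back w l1 (shiftDown (w.B a) z) := fun z => by
      unfold back
      rw [List.foldr_append]
      rfl
    rw [e] at h1 h2
    have hr' : l' = l1 ++ (a :: r) := by rw [hr, List.append_assoc]; rfl
    have hq : shiftDown (w.B a) p ≤ n := (hA.2.1 _ _).trans hp
    have hq' : shiftDown (w.B a) p' ≤ n := (hA.2.1 _ _).trans hp'
    by_cases hqq : shiftDown (w.B a) p = shiftDown (w.B a) p'
    · by_cases hz : ∃ z, z ≤ n ∧ z ≠ shiftDown (w.B a) p ∧ back w l1 z = 1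
      · obtain ⟨z, hzn, hzq, hz1⟩ := hz
        exact ih (a :: r) hr' z _ hzn hq hzq hz1 h1
      · push Not at hz
        obtain ⟨_, _, h3, h4⟩ := hA.2.2.1 (w.B a) p p' hne hqq
        set y := shiftDown (w.B a) p with hy
        have hal : a ∈ l' := by rw [hr']; simp
        have hpa := (hl'.2 a).1 hal
        have hpw := hl'.1
        rw [hr', List.pairwise_append] at hpw
        have hH : History w (fun b => before w b a) n l1 := by
          refine ⟨hpw.1, fun b => ⟨fun hb => ?_, fun hb => ?_⟩⟩
          · have hb' := (hl'.2 b).1 (by rw [hr']; exact List.mem_append_left _ hb)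
            exact ⟨hb'.1, hpw.2.2 b hb a (by simp), hb'.2.2⟩
          · have hbl : b ∈ l' := (hl'.2 b).2 ⟨hb.1, (time_le_of_before w b a hb.2.1).trans hpa.2.1, hb.2.2⟩
            rw [hr', List.mem_append, List.mem_cons] at hbl
            rcases hbl with hbl | hbl | hbl
            · exact hbl
            · exact absurd hb.2.1 (fun hh => by subst hbl; exact before_asymm w _ _ hh hh)
            · exact (before_asymm w a b ((List.pairwise_cons.1 hpw.2.1).1 b hbl) hb.2.1).elim
        obtain ⟨l, hl, hback⟩ := hB.2.2.1 w (fun b => before w b a) y n l1 hq hH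
        refine ⟨a, y, hpa.1, h3, h4, l, hl, ?_, fun x' hx' => ?_⟩
        · rw [hback y le_rfl]
          exact h1
        · rw [hback x' hx'.le]
          exact hz x' (hx'.le.trans hq) hx'.ne
    · exact ih (a :: r) hr' _ _ hq hq' hqq h1 h2

theorem stmB2_lt (hA : StmA) (hB : StmB1) (w : Path) (t : ℝ) (x x' : ℕ) (hx : x < x') (h : Anc w t x 1)
    (h' : Anc w t x' 1) : ∃ a y, Bad w a y := by
  obtain ⟨l0, hl0, hb0⟩ := h
  obtain ⟨l', hl', hb'⟩ := h'
  obtain ⟨l, hl, hback⟩ := hB.2.2.1 w _ x x' l' hx.le hl'
  have e := hB.1 w _ x l l0 hl hl0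
  have h1 : back w l' x = 1 := by rw [← hback x le_rfl, e, hb0]
  exact stmB2_aux hA hB w t x' l' hl' l' [] (by simp) x x' hx.le le_rfl hx.ne h1 hb'

theorem stmB2 (hA : StmA) (hB : StmB1) : StmB2 := by
  intro w t x x' hne h h'
  rcases lt_or_gt_of_ne hne with hlt | hlt
  · exact stmB2_lt hA hB w t x x' hlt h h'
  · exact stmB2_lt hA hB w t x' x hlt h' h

end Pool.Agent.R946.LF
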