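import Pool.Agent.R946.LF.Stm

/-!
LF-B3: a full atom in an earlier window kills the event `G`.
-/

namespace Pool.Agent.R946.LF

theorem b3_back_le (hA : StmA) (w : Path) (l : List Atom) (x : ℕ) : back w l x ≤ x := by
  induction l with
  | nil => exact le_rfl
  | cons b l ih => exact (hA.2.1 (w.B b) (back w l x)).trans ih

theorem b3_back_zero (hA : StmA) (w : Path) (l : List Atom) : back w l 0 = 0 :=
  Nat.le_zero.1 (b3_back_le hA w l 0)

theorem b3_append (w : Path) (l1 l2 : List Atom) (b : Atom) (x : ℕ) :
    back w (l1 ++ b :: l2) x = back w l1 (shiftDown (w.B b) (back w l2 x)) := by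
  simp [back, List.foldr_append]

theorem stmB3 (hA : StmA) : StmB3 := by
  intro w hV a b x hb hba hall hG
  obtain ⟨l, ⟨hp, hmem⟩, hback, hlow⟩ := hG
  rcases Nat.eq_zero_or_pos x with hx | hx
  · subst hx
    rw [b3_back_zero hA] at hback
    exact absurd hback (by norm_num)
  · have hbl : b ∈ l := by
      rw [hmem]
      refine ⟨hb, Or.inl ?_, ?_⟩
      · unfold time
        have h1 := (hV b).2
        have h2 := (hV a).1
        have h3 : (b.2.1 : ℝ) + 1 ≤ a.2.1 := by exact_mod_cast hba
        linarith
      · have h4 : Nat.count (fun y => w.B b y = true) 2 = 2 := by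
          rw [Nat.count_succ, Nat.count_succ, Nat.count_zero, if_pos (hall 0 (Nat.zero_le _)),
            if_pos (hall 1 hx)]
        have h5 : Nat.count (fun y => w.B b y = true) 2 ≤
            Nat.count (fun y => w.B b y = true) (x + 1) := Nat.count_monotone _ (by omega)
        unfold Rel
        omega
    obtain ⟨l1, l2, rfl⟩ := List.append_of_mem hbl
    have h6 := b3_back_le hA w l2 x
    rw [b3_append, hA.2.2.2.1 (w.B b) (back w l2 x) (fun z hz => hall z (hz.trans h6)),
      b3_back_zero hA] at hback
    exact absurd hback (by norm_num)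

end Pool.Agent.R946.LF
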