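import Pool.Agent.R946.LF.Defs

/-!
Statements of the independent pieces (no proofs here).
-/

namespace Pool.Agent.R946.LF

open MeasureTheory ProbabilityTheory
open scoped ENNReal NNReal

/-- LF-A. Elementary properties of `shiftDown`. -/
def StmA : Prop :=
  (∀ (J : ℕ → Bool) (x y : ℕ), ¬ Rel J x → y ≤ x → shiftDown J y = y) ∧
  (∀ (J : ℕ → Bool) (y : ℕ), shiftDown J y ≤ y) ∧
  (∀ (J : ℕ → Bool) (y y' : ℕ), y ≠ y' → shiftDown J y = shiftDown J y' →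
    J y = true ∧ J y' = true ∧ J (shiftDown J y) = true ∧ ∀ z < shiftDown J y, J z = false) ∧
  (∀ (J : ℕ → Bool) (y : ℕ), (∀ z ≤ y, J z = true) → shiftDown J y = 0) ∧
  (∀ J : ℕ → Bool, shiftDown J 0 = 0)

/-- LF-B1. Deterministic facts on histories. -/
def StmB1 : Prop :=
  (∀ (w : Path) (S : Atom → Prop) (x : ℕ) (l l' : List Atom),
    History w S x l → History w S x l' → l = l') ∧
  (∀ (w : Path) (S : Atom → Prop) (x : ℕ),
    {b | pres w b ∧ S b ∧ Rel (w.B b) x}.Finite → ∃ l, History w S x l) ∧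
  (∀ (w : Path) (S : Atom → Prop) (x x' : ℕ) (l' : List Atom), x ≤ x' → History w S x' l' →
    ∃ l, History w S x l ∧ ∀ y ≤ x, back w l y = back w l' y) ∧
  (∀ (w : Path) (l : List Atom) (x : ℕ), back w l x ≤ x) ∧
  (∀ (w : Path) (a : Atom) (x x' : ℕ), G w a x → G w a x' → x = x')

/-- LF-B2. If two levels descend from level `1` at time `t`, there is a bad atom. -/
def StmB2 : Prop :=
  ∀ (w : Path) (t : ℝ) (x x' : ℕ), x ≠ x' → Anc w t x 1 → Anc w t x' 1 → ∃ a y, Bad w a y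

/-- LF-B3. After an atom in an earlier window in which all the levels `0, …, x` participate, the
level `x` does not descend from level `1`. -/
def StmB3 : Prop :=
  ∀ (w : Path), (∀ a, w.V a ∈ Set.Ico (0 : ℝ) 1) → ∀ (a b : Atom) (x : ℕ),
    pres w b → b.2.1 < a.2.1 → (∀ z ≤ x, w.B b z = true) → ¬ G w a x

/-- LF-C. Measurability. -/
def StmC : Prop :=
  ∀ (c v : ℕ → ℝ) (Ω : Type) [MeasurableSpace Ω] (P : Measure Ω) [IsProbabilityMeasure P]
    (Z : Noise c v P) (a : Atom) (x : ℕ),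
    MeasurableSet[Z.sig (own a)ᶜ] {ω | pres (Z.W ω) a ∧ G (Z.W ω) a x}

/-- LF-D. The probability of one bad event. -/
def StmD : Prop :=
  ∀ (c v : ℕ → ℝ), (∀ k, 0 < v k ∧ v k < 1) →
    ∀ (Ω : Type) [MeasurableSpace Ω] (P : Measure Ω) [IsProbabilityMeasure P]
    (Z : Noise c v P) (a : Atom) (x : ℕ),
    MeasurableSet[Z.sig (own a)ᶜ] {ω | pres (Z.W ω) a ∧ G (Z.W ω) a x} →
    MeasurableSet {ω | Bad (Z.W ω) a x} ∧
    P {ω | Bad (Z.W ω) a x} =
      ENNReal.ofReal (v a.1 * (1 - v a.1) ^ x) * P {ω | pres (Z.W ω) a ∧ G (Z.W ω) a x}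

/-- LF-E. An upper bound for the probability that one of the levels `0, …, y` is the lowest
descendant of level `1` just before `a`. -/
def StmE : Prop :=
  ∀ (c v : ℕ → ℝ), (∀ k, 0 < c k) → (∀ k, 0 < v k ∧ v k < 1) →
    ∀ (Ω : Type) [MeasurableSpace Ω] (P : Measure Ω) [IsProbabilityMeasure P]
    (Z : Noise c v P) (a : Atom) (m y : ℕ),
    (∀ x, MeasurableSet {ω | pres (Z.W ω) a ∧ G (Z.W ω) a x}) →
    (∀ ω x x', G (Z.W ω) a x → G (Z.W ω) a x' → x = x') →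
    (∀ ω (b : Atom) x, pres (Z.W ω) b → b.2.1 < a.2.1 → (∀ z ≤ x, (Z.W ω).B b z = true) →
      ¬ G (Z.W ω) a x) →
    ∑ x ∈ Finset.range (y + 1), P {ω | pres (Z.W ω) a ∧ G (Z.W ω) a x} ≤
      P {ω | pres (Z.W ω) a} * ENNReal.ofReal (1 - pp c v m y) ^ a.2.1

/-- LF-F. Summation over all atoms (pure analysis): `q k i j` is the probability that the atom
`(k, i, j)` is present, `g k i j x` the probability that it is present and `x` is the lowest
descendant of level `1` just before. -/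
def StmF : Prop :=
  ∀ (c v p : ℕ → ℝ), (∀ k, 0 < c k) → (∀ k, 0 < v k ∧ v k < 1) → (∀ y, 0 < p y ∧ p y < 1) →
    ∀ (q : ℕ → ℕ → ℕ → ℝ≥0∞) (g : ℕ → ℕ → ℕ → ℕ → ℝ≥0∞),
    (∀ k i, ∑' j, q k i j = ENNReal.ofReal (c k)) →
    (∀ k i j, g k i j 0 = 0) →
    (∀ k i j y, ∑ x ∈ Finset.range (y + 1), g k i j x ≤
      q k i j * ENNReal.ofReal (1 - p y) ^ i) →
    ∑' (k : ℕ) (i : ℕ) (j : ℕ) (x : ℕ), ENNReal.ofReal (v k * (1 - v k) ^ x) * g k i j x ≤
      ∑' (k : ℕ) (y : ℕ),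
        ENNReal.ofReal (c k * v k * (v k * (1 - v k) ^ (y + 1) / p (y + 1)))

/-- LF-G. The explicit parameters. -/
def StmG : Prop :=
  ∃ (c v : ℕ → ℝ) (m : ℕ → ℕ), (∀ k, 0 < c k) ∧ (∀ k, 0 < v k ∧ v k < 1) ∧
    Function.Injective v ∧ Summable (fun k => c k * v k) ∧ ¬ Summable c ∧
    ¬ Summable (fun k => c k * (-(v k * Real.log (v k)))) ∧
    ∑' (k : ℕ) (y : ℕ), ENNReal.ofReal
      (c k * v k * (v k * (1 - v k) ^ (y + 1) / pp c v (m (y + 1)) (y + 1))) < 1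

/-- LF-H. Almost surely, all histories are finite. -/
def StmH : Prop :=
  ∀ (c v : ℕ → ℝ), (∀ k, 0 < c k) → (∀ k, 0 < v k ∧ v k < 1) → Summable (fun k => c k * v k) →
    ∀ (Ω : Type) [MeasurableSpace Ω] (P : Measure Ω) [IsProbabilityMeasure P]
    (Z : Noise c v P),
    ∀ᵐ ω ∂P, ∀ (t : ℝ) (x : ℕ),
      {b | pres (Z.W ω) b ∧ time (Z.W ω) b ≤ t ∧ Rel ((Z.W ω).B b) x}.Finite

/-- LF-I. The noise exists. -/
def StmI : Prop :=
  ∀ (c v : ℕ → ℝ), (∀ k, 0 < c k) → (∀ k, 0 < v k ∧ v k < 1) →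
    ∃ (Ω : Type) (_ : MeasurableSpace Ω) (P : Measure Ω) (_ : IsProbabilityMeasure P),
      Nonempty (Noise c v P)

/-- LF-J. The initial types are distinct and the expected number of atoms of kind `k` in a
window is `c k`. -/
def StmJ : Prop :=
  ∀ (c v : ℕ → ℝ), (∀ k, 0 < c k) →
    ∀ (Ω : Type) [MeasurableSpace Ω] (P : Measure Ω) [IsProbabilityMeasure P]
    (Z : Noise c v P),
    (∀ᵐ ω ∂P, Function.Injective (Z.U ω)) ∧
    (∀ k i, ∑' j, P {ω | pres (Z.W ω) (k, i, j)} = ENNReal.ofReal (c k)) ∧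
    (∀ a, MeasurableSet {ω | pres (Z.W ω) a})

end Pool.Agent.R946.LF
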