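import Mathlib
import Pool.Agent.R946.LF.Stm

/-!
LF-C. Measurability of the event `G`.
-/

set_option autoImplicit false

namespace Pool.Agent.R946.LF

open MeasureTheory ProbabilityTheory
open scoped ENNReal NNReal

namespace Cx

lemma meas_eval (y : ℕ) : Measurable (fun J : ℕ → Bool => (J y = true : Prop)) := by
  have h : MeasurableSet ((fun J : ℕ → Bool => J y) ⁻¹' {true}) :=
    (measurable_pi_apply y) (measurableSet_singleton true)
  rw [← measurableSet_setOfPred]
  exact h

lemma meas_count (x : ℕ) : Measurable (fun J : ℕ → Bool => Nat.count (fun y => J y = true) x) := by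
  induction x with
  | zero => simp only [Nat.count_zero]; exact measurable_const
  | succ x ih =>
    simp only [Nat.count_succ]
    refine ih.add (Measurable.ite (measurableSet_setOfPred.mpr (meas_eval x)) measurable_const
      measurable_const)

lemma meas_sInf : Measurable (fun J : ℕ → Bool => sInf {y | J y = true}) := by
  apply measurable_to_countable'
  intro z
  have h : (fun J : ℕ → Bool => sInf {y | J y = true}) ⁻¹' {z} =
      {J | (J z = true ∧ ∀ z', z' < z → ¬ J z' = true) ∨ (z = 0 ∧ ∀ z', ¬ J z' = true)} := by
    ext J
    simp only [Set.mem_preimage, Set.mem_singleton_iff, Set.mem_ofPred_eq]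
    constructor
    · intro h
      by_cases hne : {y | J y = true}.Nonempty
      · left
        have h1 := Nat.sInf_mem hne
        rw [h] at h1
        refine ⟨h1, fun z' hz' hJ => ?_⟩
        have := Nat.sInf_le (show z' ∈ {y | J y = true} from hJ)
        omega
      · right
        rw [Set.not_nonempty_iff_eq_empty] at hne
        refine ⟨?_, fun z' hz' => ?_⟩
        · rw [hne] at h
          simpa using h.symm
        · have : z' ∈ ({y | J y = true} : Set ℕ) := hz'
          rw [hne] at this
          exact this
    · rintro (⟨h1, h2⟩ | ⟨h1, h2⟩)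
      · apply le_antisymm (Nat.sInf_le h1)
        by_contra hc
        push Not at hc
        exact h2 _ hc (Nat.sInf_mem (s := {y | J y = true}) ⟨z, h1⟩)
      · have : {y | J y = true} = (∅ : Set ℕ) := by
          ext y
          simp only [Set.mem_ofPred_eq, Set.mem_empty_iff_false, iff_false]
          exact h2 y
        rw [this, h1]
        simp
  rw [h]
  apply measurableSet_setOfPred.mpr
  refine Measurable.or ?_ ?_
  · exact (meas_eval z).and (Measurable.forall fun z' => measurable_const.imp (meas_eval z').not)
  · exact measurable_const.and (Measurable.forall fun z' => (meas_eval z').not)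

lemma meas_shift (x : ℕ) : Measurable (fun J : ℕ → Bool => shiftDown J x) := by
  unfold shiftDown
  refine Measurable.ite (measurableSet_setOfPred.mpr (meas_eval x)) meas_sInf ?_
  exact (measurable_from_top (f := fun k : ℕ => x - (k - 1))).comp (meas_count x)

lemma meas_shift2 : Measurable (fun p : (ℕ → Bool) × ℕ => shiftDown p.1 p.2) :=
  measurable_from_prod_countable_left fun x => meas_shift x

lemma meas_rel (x : ℕ) : Measurable (fun J : ℕ → Bool => (Rel J x : Prop)) := by
  unfold Rel
  exact measurableSet_setOfPred.mp (measurableSet_le measurable_const (meas_count (x + 1)))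

section

variable {Ω : Type} [MeasurableSpace Ω] (W : Ω → Path) (a : Atom)

lemma meas_back (hB : ∀ b, b ≠ a → Measurable fun ω => (W ω).B b) (l : List Atom) (ha : a ∉ l)
    (x : ℕ) : Measurable fun ω => back (W ω) l x := by
  induction l with
  | nil => unfold back; simp only [List.foldr_nil]; exact measurable_const
  | cons b l ih =>
    have h1 : a ≠ b ∧ a ∉ l := by simpa using ha
    have h2 : ∀ ω, back (W ω) (b :: l) x = shiftDown ((W ω).B b) (back (W ω) l x) := by
      intro ω; rfl
    simp only [h2]
    exact meas_shift2.comp ((hB b h1.1.symm).prodMk (ih h1.2))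

lemma meas_pres (hN : ∀ k i, Measurable fun ω => (W ω).N k i) (b : Atom) :
    Measurable fun ω => (pres (W ω) b : Prop) := by
  unfold pres
  exact measurableSet_setOfPred.mp (measurableSet_lt measurable_const (hN _ _))

lemma meas_before (hV : ∀ b, Measurable fun ω => (W ω).V b) (b b' : Atom) :
    Measurable fun ω => (before (W ω) b b' : Prop) := by
  unfold before time
  have h : ∀ b : Atom, Measurable fun ω => (b.2.1 : ℝ) + (W ω).V b := fun b =>
    (hV b).const_add _
  exact (measurableSet_setOfPred.mp (measurableSet_lt (h b) (h b'))).or
    ((measurableSet_setOfPred.mp (measurableSet_eq_fun (h b) (h b'))).and measurable_const)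

lemma meas_pairwise (hV : ∀ b, Measurable fun ω => (W ω).V b) (l : List Atom) :
    Measurable fun ω => (l.Pairwise (before (W ω)) : Prop) := by
  induction l with
  | nil => simp only [List.Pairwise.nil]; exact measurable_const
  | cons b l ih =>
    simp only [List.pairwise_cons]
    refine Measurable.and ?_ ih
    exact Measurable.forall fun b' => measurable_const.imp (meas_before W hV b b')

lemma before_irrefl (w : Path) : ¬ before w a a := by
  rintro (h | ⟨_, h⟩)
  · exact lt_irrefl _ h
  · exact lt_irrefl _ h

lemma key (hN : ∀ k i, Measurable fun ω => (W ω).N k i)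
    (hV : ∀ b, Measurable fun ω => (W ω).V b)
    (hB : ∀ b, b ≠ a → Measurable fun ω => (W ω).B b) (x : ℕ) :
    MeasurableSet {ω | pres (W ω) a ∧ G (W ω) a x} := by
  apply measurableSet_setOfPred.mpr
  refine (meas_pres W hN a).and ?_
  unfold G
  refine Measurable.exists fun l => ?_
  by_cases ha : a ∈ l
  · have : (fun ω => (History (W ω) (fun b => before (W ω) b a) x l ∧ back (W ω) l x = 1 ∧
        ∀ x' < x, back (W ω) l x' ≠ 1 : Prop)) = fun _ => False := by
      funext ω
      apply propext
      constructor
      · rintro ⟨h, _⟩
        exact before_irrefl a (W ω) ((h.2 a).mp ha).2.1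
      · exact False.elim
    rw [this]
    exact measurable_const
  · have hb := fun y => meas_back W a hB l ha y
    have hH : (fun ω => (History (W ω) (fun b => before (W ω) b a) x l : Prop)) =
        fun ω => (l.Pairwise (before (W ω)) ∧ ∀ b, b ≠ a → (b ∈ l ↔ (pres (W ω) b ∧
          before (W ω) b a ∧ Rel ((W ω).B b) x)) : Prop) := by
      funext ω
      apply propext
      unfold History
      constructor
      · rintro ⟨h1, h2⟩
        exact ⟨h1, fun b _ => h2 b⟩
      · rintro ⟨h1, h2⟩
        refine ⟨h1, fun b => ?_⟩
        by_cases hba : b = a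
        · subst hba
          exact ⟨fun h => absurd h ha, fun h => absurd h.2.1 (before_irrefl b (W ω))⟩
        · exact h2 b hba
    refine Measurable.and ?_ (Measurable.and ?_ ?_)
    · rw [hH]
      refine (meas_pairwise W hV l).and (Measurable.forall fun b => ?_)
      by_cases hba : b = a
      · have : (fun ω => (b ≠ a → (b ∈ l ↔ (pres (W ω) b ∧
          before (W ω) b a ∧ Rel ((W ω).B b) x)) : Prop)) = fun _ => True := by
          funext ω
          apply propext
          exact ⟨fun _ => trivial, fun _ h => absurd hba h⟩
        rw [this]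
        exact measurable_const
      · refine measurable_const.imp (Measurable.iff measurable_const ?_)
        exact (meas_pres W hN b).and ((meas_before W hV b a).and ((meas_rel x).comp (hB b hba)))
    · exact measurableSet_setOfPred.mp (measurableSet_eq_fun (hb x) measurable_const)
    · refine Measurable.forall fun x' => measurable_const.imp ?_
      exact (measurableSet_setOfPred.mp (measurableSet_eq_fun (hb x') measurable_const)).not

end

end Cx

open Cx

theorem stmC : StmC := by
  intro c v Ω _ P _ Z a x
  have hcode : ∀ s : Idx, s ∉ own a →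
      @Measurable Ω ℝ (Z.sig (own a)ᶜ) _ (fun ω => code (Z.W ω) (Z.U ω) s) := by
    intro s hs
    rw [measurable_iff_comap_le]
    unfold Noise.sig
    exact le_iSup₂ (f := fun (s : Idx) (_ : s ∈ (own a)ᶜ) =>
      MeasurableSpace.comap (fun ω => code (Z.W ω) (Z.U ω) s) inferInstance) s hs
  apply @key Ω (Z.sig (own a)ᶜ) Z.W a
  · intro k i
    apply @measurable_to_countable' ℕ Ω _ _ (Z.sig (own a)ᶜ)
    intro n
    have h1 := hcode (Sum.inl (k, i)) (by rintro ⟨y, hy⟩; exact absurd hy (by simp))
    have h2 := h1 (MeasurableSet.singleton (n : ℝ))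
    convert h2 using 1
    ext ω
    simp [code]
  · intro b
    exact hcode (Sum.inr (Sum.inl b)) (by rintro ⟨y, hy⟩; exact absurd hy (by simp))
  · intro b hb
    rw [@measurable_pi_iff]
    intro y
    apply @measurable_to_bool Ω (Z.sig (own a)ᶜ)
    have h1 := hcode (Sum.inr (Sum.inr (Sum.inl (b, y)))) (by
      rintro ⟨y', hy'⟩
      simp only [Sum.inr.injEq, Sum.inl.injEq, Prod.mk.injEq] at hy'
      exact hb hy'.1.symm)
    have h2 := h1 (MeasurableSet.singleton (1 : ℝ))
    convert h2 using 1
    ext ω
    simp [code]

end Pool.Agent.R946.LF
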