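import Pool.Agent.R946.LF.Stm

/-!
LF-D. The probability of one bad event.
-/

namespace Pool.Agent.R946.LF

open MeasureTheory ProbabilityTheory
open scoped ENNReal NNReal

namespace PD

variable {c v : ℕ → ℝ} {Ω : Type} [mΩ : MeasurableSpace Ω] {P : Measure Ω}

/-- name of a participation variable -/
def nm (a : Atom) (y : ℕ) : Idx := Sum.inr (Sum.inr (Sum.inl (a, y)))

theorem nm_inj (a : Atom) : Function.Injective (nm a) := by
  intro y y' h
  unfold nm at h
  simpa using h

theorem sig_le (Z : Noise c v P) (S : Set Idx) : Z.sig S ≤ mΩ := by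
  unfold Noise.sig
  exact iSup₂_le fun s _ => (Z.meas s).comap_le

theorem ev_eq (Z : Noise c v P) (a : Atom) (y : ℕ) :
    {ω | (Z.W ω).B a y = true} = (fun ω => code (Z.W ω) (Z.U ω) (nm a y)) ⁻¹' {1} := by
  ext ω
  simp only [nm, code, Set.mem_setOf_eq, Set.mem_preimage, Set.mem_singleton_iff]
  split_ifs with h <;> simp [h]

theorem ev_eq' (Z : Noise c v P) (a : Atom) (y : ℕ) :
    {ω | (Z.W ω).B a y = false} = (fun ω => code (Z.W ω) (Z.U ω) (nm a y)) ⁻¹' {0} := by
  ext ω
  simp only [nm, code, Set.mem_setOf_eq, Set.mem_preimage, Set.mem_singleton_iff]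
  split_ifs with h <;> simp [h]

theorem ms_true (Z : Noise c v P) (a : Atom) (y : ℕ) :
    MeasurableSet[Z.sig (own a)] {ω | (Z.W ω).B a y = true} := by
  have hle : MeasurableSpace.comap (fun ω => code (Z.W ω) (Z.U ω) (nm a y)) inferInstance ≤
      Z.sig (own a) := by
    unfold Noise.sig
    exact le_iSup₂ (f := fun s (_ : s ∈ own a) =>
      MeasurableSpace.comap (fun ω => code (Z.W ω) (Z.U ω) s) inferInstance) (nm a y) ⟨y, rfl⟩
  apply hle
  rw [ev_eq]
  exact ⟨{1}, measurableSet_singleton _, rfl⟩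

theorem ms_false (Z : Noise c v P) (a : Atom) (y : ℕ) :
    MeasurableSet[Z.sig (own a)] {ω | (Z.W ω).B a y = false} := by
  have hle : MeasurableSpace.comap (fun ω => code (Z.W ω) (Z.U ω) (nm a y)) inferInstance ≤
      Z.sig (own a) := by
    unfold Noise.sig
    exact le_iSup₂ (f := fun s (_ : s ∈ own a) =>
      MeasurableSpace.comap (fun ω => code (Z.W ω) (Z.U ω) s) inferInstance) (nm a y) ⟨y, rfl⟩
  apply hle
  rw [ev_eq']
  exact ⟨{0}, measurableSet_singleton _, rfl⟩

/-- the participation event -/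
def E0 (Z : Noise c v P) (a : Atom) (x : ℕ) : Set Ω :=
  {ω | (Z.W ω).B a x = true ∧ ∀ y < x, (Z.W ω).B a y = false}

theorem ms_E0 (Z : Noise c v P) (a : Atom) (x : ℕ) : MeasurableSet[Z.sig (own a)] (E0 Z a x) := by
  have h1 : E0 Z a x = {ω | (Z.W ω).B a x = true} ∩
      ⋂ y ∈ Finset.range x, {ω | (Z.W ω).B a y = false} := by
    ext ω
    simp [E0]
  rw [h1]
  refine @MeasurableSet.inter _ (Z.sig (own a)) _ _ (ms_true Z a x) ?_
  exact @Finset.measurableSet_biInter _ _ (Z.sig (own a)) _ _ fun y _ => ms_false Z a y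

theorem prob_false (hv : ∀ k, 0 < v k ∧ v k < 1) [IsProbabilityMeasure P] (Z : Noise c v P)
    (a : Atom) (y : ℕ) : P {ω | (Z.W ω).B a y = false} = ENNReal.ofReal (1 - v a.1) := by
  have h1 : {ω | (Z.W ω).B a y = false} = {ω | (Z.W ω).B a y = true}ᶜ := by
    ext ω
    simp
  have hm : MeasurableSet {ω | (Z.W ω).B a y = true} := sig_le Z _ _ (ms_true Z a y)
  rw [h1, prob_compl_eq_one_sub hm, Z.lawB, ENNReal.ofReal_sub _ (hv a.1).1.le,
    ENNReal.ofReal_one]

theorem prob_E0 (hv : ∀ k, 0 < v k ∧ v k < 1) [IsProbabilityMeasure P] (Z : Noise c v P)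
    (a : Atom) (x : ℕ) : P (E0 Z a x) = ENNReal.ofReal (v a.1 * (1 - v a.1) ^ x) := by
  have hind := Z.indep.precomp (nm_inj a)
  have h1 : E0 Z a x = ⋂ y ∈ Finset.range (x + 1),
      (fun ω => code (Z.W ω) (Z.U ω) (nm a y)) ⁻¹' (if y = x then {1} else {0}) := by
    ext ω
    simp only [E0, Set.mem_setOf_eq, Set.mem_iInter, Finset.mem_range]
    constructor
    · rintro ⟨h1, h2⟩ y hy
      split_ifs with hyx
      · subst hyx
        rw [← ev_eq]
        exact h1
      · rw [← ev_eq']
        exact h2 y (by omega)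
    · intro h
      constructor
      · have := h x (by omega)
        rw [if_pos rfl, ← ev_eq] at this
        exact this
      · intro y hy
        have := h y (by omega)
        rw [if_neg (by omega), ← ev_eq'] at this
        exact this
  have h2 := hind.measure_inter_preimage_eq_mul (Finset.range (x + 1))
    (sets := fun y => if y = x then ({1} : Set ℝ) else {0}) (by
      intro y _
      split_ifs <;> exact measurableSet_singleton _)
  have h3 : P (E0 Z a x) = ∏ y ∈ Finset.range (x + 1),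
      P ((fun ω => code (Z.W ω) (Z.U ω) (nm a y)) ⁻¹' (if y = x then {1} else {0})) := by
    rw [h1]
    exact h2
  rw [h3, Finset.prod_range_succ, if_pos rfl, ← ev_eq, Z.lawB]
  have h4 : ∀ y ∈ Finset.range x,
      P ((fun ω => code (Z.W ω) (Z.U ω) (nm a y)) ⁻¹' (if y = x then {1} else {0})) =
        ENNReal.ofReal (1 - v a.1) := by
    intro y hy
    rw [Finset.mem_range] at hy
    rw [if_neg (by omega), ← ev_eq', prob_false hv]
  rw [Finset.prod_congr rfl h4, Finset.prod_const, Finset.card_range, mul_comm,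
    ENNReal.ofReal_mul (hv a.1).1.le, ENNReal.ofReal_pow (by linarith [(hv a.1).2])]

theorem indep_sig (Z : Noise c v P) (S : Set Idx) : Indep (Z.sig S) (Z.sig Sᶜ) P := by
  unfold Noise.sig
  have h1 : iIndep (fun s : Idx => MeasurableSpace.comap (fun ω => code (Z.W ω) (Z.U ω) s)
      inferInstance) P := Z.indep.iIndep
  exact indep_iSup_of_disjoint (fun s => (Z.meas s).comap_le) h1 disjoint_compl_right

end PD

open PD in
theorem stmD : StmD := by
  intro c v hv Ω _ P _ Z a x hG
  have h1 : {ω | Bad (Z.W ω) a x} = E0 Z a x ∩ {ω | pres (Z.W ω) a ∧ G (Z.W ω) a x} := by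
    ext ω
    simp only [Bad, E0, Set.mem_setOf_eq, Set.mem_inter_iff]
    tauto
  constructor
  · rw [h1]
    exact (sig_le Z _ _ (ms_E0 Z a x)).inter (sig_le Z _ _ hG)
  · rw [h1, ← prob_E0 hv Z a x]
    exact (Indep_iff _ _ _).1 (indep_sig Z (own a)) _ _ (ms_E0 Z a x) hG

end Pool.Agent.R946.LF
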