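import Mathlib

/-!
# The lookdown representation of the Lambda Fleming-Viot process (atomic jump measure)

The jump measure is `ν = ∑ₖ c k • δ_{v k}` on `(0,1)`.  Levels are numbered `0, 1, 2, …`
(so level `i` of the problem is level `i - 1` here).

The Poisson point process with intensity `dt ⊗ ν` is built in the usual way: for every kind `k`
and every unit time window `[i, i+1)` there are `N k i` points, a Poisson variable with
parameter `c k`, placed at the independent uniform positions `i + V (k, i, j)`, `j < N k i`;
at the point `a = (k, i, j)` the level `x` participates if `B a x = true`, which has probability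
`v k`; all these variables are independent.
-/

namespace Pool.Agent.R946.LF

open MeasureTheory ProbabilityTheory
open scoped ENNReal NNReal

/-- Names of the possible atoms: (kind, unit time window, number in the window). -/
abbrev Atom : Type := ℕ × ℕ × ℕ

/-- One realisation of the driving noise. -/
structure Path where
  /-- number of atoms of a given kind in a given unit time window -/
  N : ℕ → ℕ → ℕ
  /-- position of the atom in its window -/
  V : Atom → ℝ
  /-- does the level participate in the atom? -/
  B : Atom → ℕ → Bool

/-- The atom is present in the realisation. -/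
def pres (w : Path) (a : Atom) : Prop := a.2.2 < w.N a.1 a.2.1

/-- The time of the atom. -/
def time (w : Path) (a : Atom) : ℝ := (a.2.1 : ℝ) + w.V a

/-- `a` happens before `b` (simultaneous atoms, which almost surely do not exist, are ordered by
their names). -/
def before (w : Path) (a b : Atom) : Prop :=
  time w a < time w b ∨ (time w a = time w b ∧ Encodable.encode a < Encodable.encode b)

/-- Looking down through one atom with set of participating levels `J`: the level whose type just
before the atom is carried by level `x` just after the atom.  A participating level takes the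
type of the lowest participating level; the types on the other levels are shifted upward: the
type of a nonparticipating level `x` comes from the level `x - (#{y < x, y ∈ J} - 1)⁺`. -/
noncomputable def shiftDown (J : ℕ → Bool) (x : ℕ) : ℕ :=
  if J x = true then sInf {y | J y = true} else x - (Nat.count (fun y => J y = true) x - 1)

/-- At least two of the levels `0, …, x` participate; the other atoms do not change the types
of the levels `0, …, x`. -/
def Rel (J : ℕ → Bool) (x : ℕ) : Prop := 2 ≤ Nat.count (fun y => J y = true) (x + 1)

/-- `l` lists, in the order of time, all present atoms in `S` which are relevant for the levels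
`0, …, x`. -/
def History (w : Path) (S : Atom → Prop) (x : ℕ) (l : List Atom) : Prop :=
  l.Pairwise (before w) ∧ ∀ b, b ∈ l ↔ (pres w b ∧ S b ∧ Rel (w.B b) x)

/-- Looking down from level `x` through all the atoms of the list, the last one first. -/
noncomputable def back (w : Path) (l : List Atom) (x : ℕ) : ℕ :=
  l.foldr (fun b y => shiftDown (w.B b) y) x

/-- The level `x` at time `t` descends from the level `y` at time `0`, that is, it carries the
initial type of the level `y`. -/
def Anc (w : Path) (t : ℝ) (x y : ℕ) : Prop :=
  ∃ l, History w (fun b => time w b ≤ t) x l ∧ back w l x = y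

/-- Just before the atom `a`, the level `x` is the lowest level which descends from level `1`. -/
def G (w : Path) (a : Atom) (x : ℕ) : Prop :=
  ∃ l, History w (fun b => before w b a) x l ∧ back w l x = 1 ∧ ∀ x' < x, back w l x' ≠ 1

/-- The atom `a` is present, `x` is its lowest participating level, and just before `a` the
level `x` is the lowest level which descends from level `1`. -/
def Bad (w : Path) (a : Atom) (x : ℕ) : Prop :=
  pres w a ∧ w.B a x = true ∧ (∀ y < x, w.B a y = false) ∧ G w a x

/-- Names of the independent random variables. -/
abbrev Idx : Type := (ℕ × ℕ) ⊕ Atom ⊕ (Atom × ℕ) ⊕ ℕ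

/-- All the random variables, as real numbers. -/
def code (w : Path) (u : ℕ → ℝ) : Idx → ℝ
  | .inl p => (w.N p.1 p.2 : ℝ)
  | .inr (.inl a) => w.V a
  | .inr (.inr (.inl p)) => if w.B p.1 p.2 = true then 1 else 0
  | .inr (.inr (.inr n)) => u n

/-- The driving noise of the lookdown representation, for the jump measure
`ν = ∑ₖ c k • δ_{v k}`, together with the initial types `U n` (independent, uniform on
`[0,1]`). -/
structure Noise (c : ℕ → ℝ) (v : ℕ → ℝ) {Ω : Type} [MeasurableSpace Ω] (P : Measure Ω) where
  /-- the driving noise -/
  W : Ω → Path
  /-- the initial types -/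
  U : Ω → ℕ → ℝ
  meas : ∀ s : Idx, Measurable fun ω => code (W ω) (U ω) s
  lawN : ∀ k i n : ℕ, P {ω | (W ω).N k i = n} =
    ENNReal.ofReal (Real.exp (-c k) * c k ^ n / (n.factorial : ℝ))
  V_mem : ∀ a ω, (W ω).V a ∈ Set.Ico (0 : ℝ) 1
  lawV : ∀ a, P.map (fun ω => (W ω).V a) = volume.restrict (Set.Ico (0 : ℝ) 1)
  lawB : ∀ a x, P {ω | (W ω).B a x = true} = ENNReal.ofReal (v a.1)
  lawU : ∀ n, P.map (fun ω => U ω n) = volume.restrict (Set.Icc (0 : ℝ) 1)
  indep : iIndepFun (fun (s : Idx) ω => code (W ω) (U ω) s) P

/-- The sigma-algebra generated by the random variables with names in `S`. -/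
def Noise.sig {c : ℕ → ℝ} {v : ℕ → ℝ} {Ω : Type} [MeasurableSpace Ω] {P : Measure Ω}
    (Z : Noise c v P) (S : Set Idx) : MeasurableSpace Ω :=
  ⨆ s ∈ S, MeasurableSpace.comap (fun ω => code (Z.W ω) (Z.U ω) s) inferInstance

/-- The names of the participation variables of the atom `a`. -/
def own (a : Atom) : Set Idx := Set.range fun x : ℕ => (Sum.inr (Sum.inr (Sum.inl (a, x))) : Idx)

/-- The probability that an atom of kind `m` is present in a given window with number `0` and all
levels `0, …, y` participate. -/
noncomputable def pp (c v : ℕ → ℝ) (m y : ℕ) : ℝ := (1 - Real.exp (-c m)) * v m ^ (y + 1)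

end Pool.Agent.R946.LF
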