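import Mathlib
import Pool.Agent.R946.LF.Stm

set_option autoImplicit false

namespace Pool.Agent.R946.LF

open MeasureTheory ProbabilityTheory
open scoped ENNReal NNReal

namespace Ex

variable {c v : ℕ → ℝ} {Ω : Type} [mΩ : MeasurableSpace Ω] {P : Measure Ω}

/-- index of the number of atoms -/
def iN (k i : ℕ) : Idx := Sum.inl (k, i)

/-- index of a participation variable -/
def iB (a : Atom) (z : ℕ) : Idx := Sum.inr (Sum.inr (Sum.inl (a, z)))

/-- the coded variable -/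
def cf (Z : Noise c v P) (s : Idx) : Ω → ℝ := fun ω => code (Z.W ω) (Z.U ω) s

lemma comap_le_sig (Z : Noise c v P) (S : Set Idx) (s : Idx) (hs : s ∈ S) :
    MeasurableSpace.comap (cf Z s) inferInstance ≤ Z.sig S :=
  le_iSup₂ (f := fun (s : Idx) (_ : s ∈ S) =>
    MeasurableSpace.comap (fun ω => code (Z.W ω) (Z.U ω) s) inferInstance) s hs

lemma sig_le (Z : Noise c v P) (S : Set Idx) : Z.sig S ≤ mΩ := by
  refine iSup₂_le ?_
  intro s _
  exact (Z.meas s).comap_le

lemma sig_mono (Z : Noise c v P) {S T : Set Idx} (h : S ⊆ T) : Z.sig S ≤ Z.sig T := by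
  refine iSup₂_le ?_
  intro s hs
  exact comap_le_sig Z T s (h hs)

lemma meas_pre (Z : Noise c v P) (S : Set Idx) (s : Idx) (hs : s ∈ S) (t : Set ℝ)
    (ht : MeasurableSet t) : MeasurableSet[Z.sig S] (cf Z s ⁻¹' t) :=
  comap_le_sig Z S s hs _ ⟨t, ht, rfl⟩

lemma sig_indep (Z : Noise c v P) {S T : Set Idx} (h : Disjoint S T) {A B : Set Ω}
    (hA : MeasurableSet[Z.sig S] A) (hB : MeasurableSet[Z.sig T] B) :
    P (A ∩ B) = P A * P B := by
  have h1 : iIndep (fun s : Idx => MeasurableSpace.comap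
    (fun ω => code (Z.W ω) (Z.U ω) s) inferInstance) P := Z.indep.iIndep
  have h2 := indep_iSup_of_disjoint (fun s => (Z.meas s).comap_le) h1 h
  exact (Indep_iff _ _ _).1 h2 A B hA hB

lemma pres_eq (Z : Noise c v P) (b : Atom) :
    {ω | pres (Z.W ω) b} = cf Z (iN b.1 b.2.1) ⁻¹' Set.Ioi (b.2.2 : ℝ) := by
  ext ω
  simp only [Set.mem_ofPred_eq, Set.mem_preimage, Set.mem_Ioi, cf, iN, code, pres]
  exact Nat.cast_lt.symm

lemma B_eq (Z : Noise c v P) (b : Atom) (z : ℕ) :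
    {ω | (Z.W ω).B b z = true} = cf Z (iB b z) ⁻¹' {1} := by
  ext ω
  simp only [Set.mem_ofPred_eq, Set.mem_preimage, Set.mem_singleton_iff, cf, iB, code]
  by_cases h : (Z.W ω).B b z = true
  · simp [h]
  · simp [h]

/-- the full atom number `0` of kind `m` in window `j` -/
def HH (Z : Noise c v P) (m y j : ℕ) : Set Ω :=
  {ω | pres (Z.W ω) (m, j, 0) ∧ ∀ z ≤ y, (Z.W ω).B (m, j, 0) z = true}

/-- the coordinates of `HH` -/
def Tf (m y j : ℕ) : Finset Idx :=
  insert (iN m j) ((Finset.range (y + 1)).image (fun z => iB (m, j, 0) z))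

/-- the values -/
def vals : Idx → Set ℝ
  | .inl _ => Set.Ioi 0
  | .inr _ => {1}

lemma vals_meas (s : Idx) : MeasurableSet (vals s) := by
  cases s with
  | inl p => exact measurableSet_Ioi
  | inr q => exact measurableSet_singleton _

lemma HH_eq (Z : Noise c v P) (m y j : ℕ) :
    HH Z m y j = ⋂ s ∈ Tf m y j, cf Z s ⁻¹' vals s := by
  have hp := pres_eq Z (m, j, 0)
  ext ω
  have h1 : pres (Z.W ω) (m, j, 0) ↔ ω ∈ cf Z (iN m j) ⁻¹' vals (iN m j) := by
    have := Set.ext_iff.1 hp ω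
    simpa [vals, iN] using this
  have h2 : ∀ z, (Z.W ω).B (m, j, 0) z = true ↔
      ω ∈ cf Z (iB (m, j, 0) z) ⁻¹' vals (iB (m, j, 0) z) := fun z =>
    Set.ext_iff.1 (B_eq Z (m, j, 0) z) ω
  simp only [HH, Set.mem_ofPred_eq, Set.mem_iInter, Tf, Finset.mem_insert, Finset.mem_image,
    Finset.mem_range]
  constructor
  · rintro ⟨ha, hb⟩ s (rfl | ⟨z, hz, rfl⟩)
    · exact h1.1 ha
    · exact (h2 z).1 (hb z (by omega))
  · intro h
    exact ⟨h1.2 (h _ (Or.inl rfl)), fun z hz => (h2 z).2 (h _ (Or.inr ⟨z, by omega, rfl⟩))⟩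

lemma HH_meas (Z : Noise c v P) (m y j : ℕ) :
    MeasurableSet[Z.sig (Tf m y j : Set Idx)] (HH Z m y j) := by
  rw [HH_eq]
  refine @Finset.measurableSet_biInter Ω Idx (Z.sig (Tf m y j : Set Idx)) _ (Tf m y j) ?_
  intro s hs
  exact meas_pre Z _ s hs _ (vals_meas s)

lemma HH_prob (Z : Noise c v P) [IsProbabilityMeasure P] (hc : ∀ k, 0 < c k)
    (hv : ∀ k, 0 < v k ∧ v k < 1) (m y j : ℕ) :
    P (HH Z m y j) = ENNReal.ofReal (pp c v m y) := by
  have h0 : P (HH Z m y j) = ∏ s ∈ Tf m y j, P (cf Z s ⁻¹' vals s) := by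
    rw [HH_eq]
    exact Z.indep.measure_inter_preimage_eq_mul _ (fun s _ => vals_meas s)
  rw [h0, Tf, Finset.prod_insert (by simp [iN, iB]), Finset.prod_image (by
    intro z _ z' _ h
    simpa [iB] using h)]
  have h1 : ∀ z ∈ Finset.range (y + 1), P (cf Z (iB (m, j, 0) z) ⁻¹' vals (iB (m, j, 0) z)) =
      ENNReal.ofReal (v m) := by
    intro z _
    have := Z.lawB (m, j, 0) z
    rw [B_eq] at this
    exact this
  rw [Finset.prod_congr rfl h1, Finset.prod_const, Finset.card_range]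
  have h2 : P (cf Z (iN m j) ⁻¹' vals (iN m j)) = ENNReal.ofReal (1 - Real.exp (-c m)) := by
    have h3 : cf Z (iN m j) ⁻¹' vals (iN m j) = {ω | (Z.W ω).N m j = 0}ᶜ := by
      ext ω
      simp only [Set.mem_preimage, cf, iN, code, vals, Set.mem_Ioi, Set.mem_compl_iff,
        Set.mem_ofPred_eq, Nat.cast_pos]
      exact Nat.pos_iff_ne_zero
    have h4 : {ω | (Z.W ω).N m j = 0} = cf Z (iN m j) ⁻¹' {0} := by
      ext ω
      simp only [Set.mem_preimage, cf, iN, code, Set.mem_singleton_iff,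
        Set.mem_ofPred_eq, Nat.cast_eq_zero]
    have h5 : MeasurableSet {ω | (Z.W ω).N m j = 0} := by
      rw [h4]
      exact (Z.meas (iN m j)) (measurableSet_singleton _)
    rw [h3, prob_compl_eq_one_sub h5, Z.lawN m j 0]
    rw [ENNReal.ofReal_sub _ (Real.exp_pos _).le, ENNReal.ofReal_one]
    simp
  rw [h2, pp, ENNReal.ofReal_mul (by
    have := Real.exp_le_one_iff.2 (neg_nonpos.2 (hc m).le)
    linarith), ENNReal.ofReal_pow (hv m).1.le]

/-- coordinates of `EE` -/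
def Sf (a : Atom) (m y j : ℕ) : Set Idx :=
  {s | s = iN a.1 a.2.1 ∨ ∃ j' < j, s ∈ Tf m y j'}

/-- present, and no full atom in the first `j` windows -/
def EE (Z : Noise c v P) (a : Atom) (m y j : ℕ) : Set Ω :=
  {ω | pres (Z.W ω) a ∧ ∀ j' < j, ω ∉ HH Z m y j'}

lemma EE_zero (Z : Noise c v P) (a : Atom) (m y : ℕ) :
    EE Z a m y 0 = {ω | pres (Z.W ω) a} := by
  ext ω
  simp [EE]

lemma EE_succ (Z : Noise c v P) (a : Atom) (m y j : ℕ) :
    EE Z a m y (j + 1) = EE Z a m y j ∩ (HH Z m y j)ᶜ := by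
  ext ω
  simp only [EE, Set.mem_ofPred_eq, Set.mem_inter_iff, Set.mem_compl_iff]
  constructor
  · rintro ⟨h1, h2⟩
    exact ⟨⟨h1, fun j' hj' => h2 j' (by omega)⟩, h2 j (by omega)⟩
  · rintro ⟨⟨h1, h2⟩, h3⟩
    refine ⟨h1, fun j' hj' => ?_⟩
    rcases Nat.lt_succ_iff_lt_or_eq.1 hj' with h | h
    · exact h2 j' h
    · rw [h]; exact h3

lemma EE_meas (Z : Noise c v P) (a : Atom) (m y j : ℕ) :
    MeasurableSet[Z.sig (Sf a m y j)] (EE Z a m y j) := by
  induction j with
  | zero =>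
    rw [EE_zero, pres_eq]
    exact meas_pre Z _ _ (Or.inl rfl) _ measurableSet_Ioi
  | succ j ih =>
    rw [EE_succ]
    have h1 : MeasurableSet[Z.sig (Sf a m y (j + 1))] (EE Z a m y j) := by
      refine sig_mono Z ?_ _ ih
      rintro s (h | ⟨j', hj', h⟩)
      · exact Or.inl h
      · exact Or.inr ⟨j', by omega, h⟩
    have h2 : MeasurableSet[Z.sig (Sf a m y (j + 1))] (HH Z m y j)ᶜ := by
      have h3 : MeasurableSet[Z.sig (Sf a m y (j + 1))] (HH Z m y j) := by
        refine sig_mono Z ?_ _ (HH_meas Z m y j)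
        intro s hs
        exact Or.inr ⟨j, by omega, hs⟩
      exact @MeasurableSet.compl Ω _ (Z.sig (Sf a m y (j + 1))) h3
    exact @MeasurableSet.inter Ω (Z.sig (Sf a m y (j + 1))) _ _ h1 h2

lemma disj (a : Atom) (m y j : ℕ) (hj : j < a.2.1) :
    Disjoint (Sf a m y j) (Tf m y j : Set Idx) := by
  rw [Set.disjoint_left]
  intro s hs ht
  simp only [Tf, Finset.coe_insert, Finset.coe_image, Set.mem_insert_iff, Set.mem_image] at ht
  rcases hs with h | ⟨j', hj', h⟩
  · rcases ht with h' | ⟨z, _, h'⟩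
    · rw [h] at h'
      simp only [iN, Sum.inl.injEq, Prod.mk.injEq] at h'
      omega
    · rw [h] at h'
      simp [iN, iB] at h'
  · simp only [Tf, Finset.mem_insert, Finset.mem_image] at h
    rcases h with h | ⟨z', _, h⟩
    · rcases ht with h' | ⟨z, _, h'⟩
      · rw [h] at h'
        simp only [iN, Sum.inl.injEq, Prod.mk.injEq] at h'
        omega
      · rw [h] at h'
        simp [iN, iB] at h'
    · rcases ht with h' | ⟨z, _, h'⟩
      · rw [← h] at h'
        simp [iN, iB] at h'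
      · rw [← h] at h'
        simp only [iB, Sum.inr.injEq, Sum.inl.injEq, Prod.mk.injEq] at h'
        omega

lemma EE_prob (Z : Noise c v P) [IsProbabilityMeasure P] (hc : ∀ k, 0 < c k)
    (hv : ∀ k, 0 < v k ∧ v k < 1) (a : Atom) (m y j : ℕ) (hj : j ≤ a.2.1) :
    P (EE Z a m y j) = P {ω | pres (Z.W ω) a} * ENNReal.ofReal (1 - pp c v m y) ^ j := by
  have hpp : 0 ≤ pp c v m y := by
    have h1 := Real.exp_le_one_iff.2 (neg_nonpos.2 (hc m).le)
    have h2 : 0 ≤ 1 - Real.exp (-c m) := by linarith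
    exact mul_nonneg h2 (pow_nonneg (hv m).1.le _)
  induction j with
  | zero => rw [EE_zero]; simp
  | succ j ih =>
    have ih' := ih (by omega)
    have hT := HH_meas Z m y j
    have hT' : MeasurableSet[Z.sig (Tf m y j : Set Idx)] (HH Z m y j)ᶜ :=
      @MeasurableSet.compl Ω _ (Z.sig (Tf m y j : Set Idx)) hT
    have hT'' : MeasurableSet (HH Z m y j) := sig_le Z _ _ hT
    rw [EE_succ, sig_indep Z (disj a m y j (by omega)) (EE_meas Z a m y j) hT', ih',
      prob_compl_eq_one_sub hT'', HH_prob Z hc hv m y j, pow_succ,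
      ENNReal.ofReal_sub _ hpp, ENNReal.ofReal_one, mul_assoc]

end Ex

open Ex in
theorem stmE : StmE := by
  intro c v hc hv Ω _ P _ Z a m y hmeas huniq hkill
  have h1 : ∑ x ∈ Finset.range (y + 1), P {ω | pres (Z.W ω) a ∧ G (Z.W ω) a x} =
      P (⋃ x ∈ Finset.range (y + 1), {ω | pres (Z.W ω) a ∧ G (Z.W ω) a x}) := by
    rw [measure_biUnion_finset]
    · intro x _ x' _ hne
      rw [Function.onFun, Set.disjoint_left]
      intro ω hω hω'
      exact hne (huniq ω x x' hω.2 hω'.2)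
    · intro x _
      exact hmeas x
  rw [h1, ← EE_prob Z hc hv a m y a.2.1 le_rfl]
  apply measure_mono
  intro ω hω
  simp only [Set.mem_iUnion, Finset.mem_range, Set.mem_ofPred_eq] at hω
  obtain ⟨x, hx, hp, hG⟩ := hω
  refine ⟨hp, ?_⟩
  intro j' hj' hH
  exact hkill ω (m, j', 0) x hH.1 hj' (fun z hz => hH.2 z (by omega)) hG

end Pool.Agent.R946.LF
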