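import Pool.Agent.R946.LF.Stm

/-!
# Lookdown project: summation over all atoms (`LF-F`)
-/

set_option autoImplicit false

namespace Pool.Agent.R946.LF

open MeasureTheory ProbabilityTheory
open scoped ENNReal NNReal

namespace FF

theorem geo {V : ℝ} (h0 : 0 < V) (h1 : V < 1) :
    ∑' i : ℕ, ENNReal.ofReal (1 - V) ^ i = (ENNReal.ofReal V)⁻¹ := by
  rw [ENNReal.tsum_geometric]
  congr 1
  rw [← ENNReal.ofReal_one, ← ENNReal.ofReal_sub _ (by linarith)]
  congr 1
  ring

theorem tail {V : ℝ} (h0 : 0 < V) (h1 : V < 1) (x : ℕ) :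
    ∑' n : ℕ, ENNReal.ofReal (V ^ 2 * (1 - V) ^ (n + x)) = ENNReal.ofReal (V * (1 - V) ^ x) := by
  have hv : 0 < 1 - V := by linarith
  have e : ∀ n : ℕ, ENNReal.ofReal (V ^ 2 * (1 - V) ^ (n + x)) =
      ENNReal.ofReal (V ^ 2 * (1 - V) ^ x) * ENNReal.ofReal (1 - V) ^ n := by
    intro n
    rw [← ENNReal.ofReal_pow hv.le, ← ENNReal.ofReal_mul (by positivity)]
    congr 1
    ring
  simp only [e]
  rw [ENNReal.tsum_mul_left, geo h0 h1, ← ENNReal.ofReal_inv_of_pos h0,
    ← ENNReal.ofReal_mul (by positivity)]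
  congr 1
  field_simp

theorem swap {V : ℝ} (h0 : 0 < V) (h1 : V < 1) (g : ℕ → ℝ≥0∞) (g0 : g 0 = 0) :
    ∑' x : ℕ, ENNReal.ofReal (V * (1 - V) ^ x) * g x =
      ∑' y : ℕ, ENNReal.ofReal (V ^ 2 * (1 - V) ^ (y + 1)) *
        ∑ x ∈ Finset.range (y + 2), g x := by
  have e1 : ∀ x : ℕ, ENNReal.ofReal (V * (1 - V) ^ x) =
      ∑' y : ℕ, if x ≤ y then ENNReal.ofReal (V ^ 2 * (1 - V) ^ y) else 0 := by
    intro x
    rw [← Summable.sum_add_tsum_nat_add' (k := x)
      (f := fun y => if x ≤ y then ENNReal.ofReal (V ^ 2 * (1 - V) ^ y) else 0)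
      ENNReal.summable]
    have e2 : ∑ y ∈ Finset.range x, (if x ≤ y then ENNReal.ofReal (V ^ 2 * (1 - V) ^ y)
        else 0) = 0 := by
      refine Finset.sum_eq_zero fun y hy => ?_
      rw [if_neg]
      rw [Finset.mem_range] at hy
      omega
    rw [e2, zero_add, ← tail h0 h1 x]
    refine tsum_congr fun n => ?_
    rw [if_pos (by omega)]
  have e3 : ∀ x : ℕ, ENNReal.ofReal (V * (1 - V) ^ x) * g x =
      ∑' y : ℕ, if x ≤ y then ENNReal.ofReal (V ^ 2 * (1 - V) ^ y) * g x else 0 := by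
    intro x
    rw [e1 x, ← ENNReal.tsum_mul_right]
    refine tsum_congr fun y => ?_
    split_ifs
    · rfl
    · rw [zero_mul]
  simp only [e3]
  rw [ENNReal.tsum_comm]
  have e4 : ∀ y : ℕ, ∑' x : ℕ, (if x ≤ y then ENNReal.ofReal (V ^ 2 * (1 - V) ^ y) * g x else 0) =
      ENNReal.ofReal (V ^ 2 * (1 - V) ^ y) * ∑ x ∈ Finset.range (y + 1), g x := by
    intro y
    rw [tsum_eq_sum (s := Finset.range (y + 1)), Finset.mul_sum]
    · refine Finset.sum_congr rfl fun x hx => ?_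
      rw [Finset.mem_range] at hx
      rw [if_pos (by omega)]
    · intro x hx
      rw [Finset.mem_range] at hx
      rw [if_neg (by omega)]
  simp only [e4]
  rw [← Summable.sum_add_tsum_nat_add' (k := 1)
      (f := fun y => ENNReal.ofReal (V ^ 2 * (1 - V) ^ y) * ∑ x ∈ Finset.range (y + 1), g x)
      ENNReal.summable]
  simp [g0]

end FF

open FF in
theorem stmF : StmF := by
  intro c v p hc hv hp q g hq hg0 hg
  refine ENNReal.tsum_le_tsum fun k => ?_
  obtain ⟨v0, v1⟩ := hv k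
  have hv' : 0 < 1 - v k := by linarith
  calc ∑' (i : ℕ) (j : ℕ) (x : ℕ), ENNReal.ofReal (v k * (1 - v k) ^ x) * g k i j x
      ≤ ∑' (i : ℕ) (j : ℕ) (y : ℕ), ENNReal.ofReal (v k ^ 2 * (1 - v k) ^ (y + 1)) *
        (q k i j * ENNReal.ofReal (1 - p (y + 1)) ^ i) := by
        refine ENNReal.tsum_le_tsum fun i => ENNReal.tsum_le_tsum fun j => ?_
        rw [swap v0 v1 (g k i j) (hg0 k i j)]
        refine ENNReal.tsum_le_tsum fun y => ?_
        gcongr
        exact hg k i j (y + 1)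
    _ = ∑' (y : ℕ) (i : ℕ) (j : ℕ), ENNReal.ofReal (v k ^ 2 * (1 - v k) ^ (y + 1)) *
        (q k i j * ENNReal.ofReal (1 - p (y + 1)) ^ i) := by
        rw [ENNReal.tsum_comm]
        have e : ∀ i : ℕ, ∑' (j : ℕ) (y : ℕ), ENNReal.ofReal (v k ^ 2 * (1 - v k) ^ (y + 1)) *
            (q k i j * ENNReal.ofReal (1 - p (y + 1)) ^ i) = ∑' (y : ℕ) (j : ℕ),
            ENNReal.ofReal (v k ^ 2 * (1 - v k) ^ (y + 1)) *
            (q k i j * ENNReal.ofReal (1 - p (y + 1)) ^ i) := fun i => ENNReal.tsum_comm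
        rw [ENNReal.tsum_comm]
        simp only [e]
        rw [ENNReal.tsum_comm]
    _ = _ := by
        refine tsum_congr fun y => ?_
        obtain ⟨p0, p1⟩ := hp (y + 1)
        have e : ∀ i : ℕ, ∑' j : ℕ, ENNReal.ofReal (v k ^ 2 * (1 - v k) ^ (y + 1)) *
            (q k i j * ENNReal.ofReal (1 - p (y + 1)) ^ i) =
            (ENNReal.ofReal (v k ^ 2 * (1 - v k) ^ (y + 1)) * ENNReal.ofReal (c k)) *
              ENNReal.ofReal (1 - p (y + 1)) ^ i := by
          intro i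
          rw [ENNReal.tsum_mul_left, ENNReal.tsum_mul_right, hq k i, mul_assoc]
        simp only [e]
        rw [ENNReal.tsum_mul_left, geo p0 p1, ← ENNReal.ofReal_inv_of_pos p0,
          ← ENNReal.ofReal_mul (by positivity), ← ENNReal.ofReal_mul (by
            have := hc k; positivity)]
        congr 1
        ring

end Pool.Agent.R946.LF
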