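import Pool.Agent.R946.LF.Stm

/-!
# LF-G: the explicit parameters

Small kinds `v (2k) = 2 ^ (-4^(k+3))`, `c (2k) * v (2k) = 4^(-(k+3))`; big kinds
`v (2k+1) = 1 - 1/(2 M k)`, `M k = 2 ^ (4^(k+3))`, `c (2k+1) = 2^(-k)`.
-/

set_option autoImplicit false

namespace Pool.Agent.R946.LF.PG

open MeasureTheory Filter Topology
open scoped ENNReal NNReal

/-- exponent -/
def L (k : ℕ) : ℕ := 4 ^ (k + 3)

/-- scale -/
def M (k : ℕ) : ℕ := 2 ^ L k

lemma L_pos (k : ℕ) : 0 < L k := by unfold L; positivity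

lemma L_ge (k : ℕ) : 64 ≤ L k := by
  unfold L
  calc 64 = 4 ^ 3 := by norm_num
    _ ≤ 4 ^ (k + 3) := Nat.pow_le_pow_right (by norm_num) (by omega)

lemma M_pos (k : ℕ) : 0 < M k := by unfold M; positivity

lemma M_gt (k : ℕ) : L k < M k := Nat.lt_two_pow_self

lemma M_ge (k : ℕ) : 64 ≤ M k := ((L_ge k).trans_lt (M_gt k)).le

lemma M_succ (k : ℕ) : 4 * M k ≤ M (k + 1) := by
  unfold M
  have h : L (k + 1) = 4 * L k := by unfold L; ring
  rw [h]
  calc 4 * 2 ^ L k = 2 ^ (L k + 2) := by ring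
    _ ≤ 2 ^ (4 * L k) := Nat.pow_le_pow_right (by norm_num) (by have := L_pos k; omega)

lemma M_add (k n : ℕ) : 4 ^ n * M k ≤ M (k + n) := by
  induction n with
  | zero => simp
  | succ n ih =>
    calc 4 ^ (n + 1) * M k = 4 * (4 ^ n * M k) := by ring
      _ ≤ 4 * M (k + n) := by omega
      _ ≤ M (k + n + 1) := M_succ _

lemma ex (Y : ℕ) : ∃ l, Y + 1 ≤ M l := ⟨Y, by
  have h1 : Y < 4 ^ Y := Nat.lt_pow_self (by norm_num)
  have h2 : 4 ^ Y ≤ L Y := Nat.pow_le_pow_right (by norm_num) (by omega)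
  have h3 := M_gt Y
  omega⟩

/-- the least scale above `Y` -/
noncomputable def l (Y : ℕ) : ℕ := Nat.find (ex Y)

lemma l_spec (Y : ℕ) : Y + 1 ≤ M (l Y) := Nat.find_spec (ex Y)

lemma l_min (Y j : ℕ) (h : j < l Y) : M j ≤ Y := by
  have := Nat.find_min (ex Y) h
  omega

lemma two_pow_l (k Y : ℕ) : (2 : ℝ) ^ l Y ≤ 2 ^ k * (1 + (Y : ℝ) / M k) := by
  have hM : (0 : ℝ) < M k := by exact_mod_cast M_pos k
  rcases Nat.lt_or_ge k (l Y) with h | h
  · obtain ⟨n, hn⟩ : ∃ n, l Y = k + n + 1 := ⟨l Y - k - 1, by omega⟩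
    have h1 : M (k + n) ≤ Y := l_min Y _ (by omega)
    have h2 : 4 ^ n * M k ≤ Y := (M_add k n).trans h1
    have h3 : (4 : ℝ) ^ n * M k ≤ Y := by exact_mod_cast h2
    have h4 : (4 : ℝ) ^ n ≤ (Y : ℝ) / M k := by rwa [le_div_iff₀ hM]
    have h5 : (2 : ℝ) ^ (n + 1) ≤ 1 + 4 ^ n := by
      have : (4 : ℝ) ^ n = (2 ^ n) ^ 2 := by
        rw [← pow_mul, mul_comm n 2, pow_mul]; norm_num
      rw [this, pow_succ]
      nlinarith [sq_nonneg ((2 : ℝ) ^ n - 1)]
    calc (2 : ℝ) ^ l Y = 2 ^ k * 2 ^ (n + 1) := by rw [hn]; ring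
      _ ≤ 2 ^ k * (1 + (Y : ℝ) / M k) := by gcongr; linarith
  · have h1 : (2 : ℝ) ^ l Y ≤ 2 ^ k := pow_le_pow_right₀ (by norm_num) h
    have h2 : (0 : ℝ) ≤ (Y : ℝ) / M k := by positivity
    nlinarith [pow_pos (show (0 : ℝ) < 2 by norm_num) k]

/-- the small participation probabilities -/
noncomputable def w (k : ℕ) : ℝ := ((M k : ℕ) : ℝ)⁻¹

lemma w_pos (k : ℕ) : 0 < w k := by
  unfold w; have := M_pos k; positivity

lemma w_le (k : ℕ) : w k ≤ 1 / 64 := by
  unfold w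
  rw [one_div]
  exact inv_anti₀ (by norm_num) (by exact_mod_cast M_ge k)

/-- the parameters -/
noncomputable def v (n : ℕ) : ℝ := if n % 2 = 0 then w (n / 2) else 1 - w (n / 2) / 2

/-- the parameters -/
noncomputable def c (n : ℕ) : ℝ :=
  if n % 2 = 0 then ((L (n / 2) : ℕ) : ℝ)⁻¹ * M (n / 2) else (1 / 2) ^ (n / 2)

lemma v_even (k : ℕ) : v (2 * k) = w k := by
  unfold v
  rw [if_pos (by omega), show 2 * k / 2 = k by omega]

lemma v_odd (k : ℕ) : v (2 * k + 1) = 1 - w k / 2 := by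
  unfold v
  rw [if_neg (by omega), show (2 * k + 1) / 2 = k by omega]

lemma c_even (k : ℕ) : c (2 * k) = ((L k : ℕ) : ℝ)⁻¹ * M k := by
  unfold c
  rw [if_pos (by omega), show 2 * k / 2 = k by omega]

lemma c_odd (k : ℕ) : c (2 * k + 1) = (1 / 2) ^ k := by
  unfold c
  rw [if_neg (by omega), show (2 * k + 1) / 2 = k by omega]

lemma even_odd (n : ℕ) : (∃ k, n = 2 * k) ∨ ∃ k, n = 2 * k + 1 := by
  rcases Nat.even_or_odd' n with ⟨k, h | h⟩
  · exact Or.inl ⟨k, h⟩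
  · exact Or.inr ⟨k, h⟩

lemma c_pos (n : ℕ) : 0 < c n := by
  rcases even_odd n with ⟨k, rfl⟩ | ⟨k, rfl⟩
  · rw [c_even]
    have := M_pos k
    have := L_pos k
    positivity
  · rw [c_odd]; positivity

lemma v_mem (n : ℕ) : 0 < v n ∧ v n < 1 := by
  rcases even_odd n with ⟨k, rfl⟩ | ⟨k, rfl⟩
  · rw [v_even]
    exact ⟨w_pos k, by linarith [w_le k]⟩
  · rw [v_odd]
    constructor <;> linarith [w_pos k, w_le k]

lemma cv_even (k : ℕ) : c (2 * k) * v (2 * k) = ((L k : ℕ) : ℝ)⁻¹ := by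
  rw [c_even, v_even, w]
  have : ((M k : ℕ) : ℝ) ≠ 0 := by exact_mod_cast (M_pos k).ne'
  field_simp

lemma L_real (k : ℕ) : ((L k : ℕ) : ℝ)⁻¹ = (1 / 64) * (1 / 4) ^ k := by
  unfold L
  push_cast
  rw [pow_add, mul_inv, one_div_pow]
  norm_num
  ring

lemma w_inj : Function.Injective w := by
  intro a b h
  unfold w at h
  have h1 : M a = M b := by
    have := inv_injective h
    exact_mod_cast this
  unfold M at h1
  have h2 : L a = L b := Nat.pow_right_injective le_rfl h1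
  unfold L at h2
  have h3 := Nat.pow_right_injective (show 2 ≤ 4 by norm_num) h2
  simpa using h3

lemma v_inj : Function.Injective v := by
  intro a b h
  rcases even_odd a with ⟨k, rfl⟩ | ⟨k, rfl⟩ <;> rcases even_odd b with ⟨j, rfl⟩ | ⟨j, rfl⟩
  · rw [v_even, v_even] at h
    rw [w_inj h]
  · rw [v_even, v_odd] at h
    linarith [w_le k, w_le j]
  · rw [v_even, v_odd] at h
    linarith [w_le k, w_le j]
  · rw [v_odd, v_odd] at h
    rw [w_inj (by linarith : w k = w j)]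

lemma sum_cv : Summable fun k => c k * v k := by
  have he : Summable fun k => c (2 * k) * v (2 * k) := by
    simp_rw [cv_even, L_real]
    exact (summable_geometric_of_lt_one (by norm_num) (by norm_num)).mul_left _
  have ho : Summable fun k => c (2 * k + 1) * v (2 * k + 1) := by
    refine Summable.of_nonneg_of_le (fun k => (mul_pos (c_pos _) (v_mem _).1).le) (fun k => ?_)
      (summable_geometric_of_lt_one (r := (1 / 2 : ℝ)) (by norm_num) (by norm_num))
    rw [c_odd]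
    have h1 := (v_mem (2 * k + 1)).2
    have h2 : (0 : ℝ) < (1 / 2) ^ k := by positivity
    nlinarith
  exact Summable.even_add_odd he ho

lemma not_sum_c : ¬ Summable c := by
  intro h
  have h1 : Tendsto (fun k => c (2 * k)) atTop (𝓝 0) :=
    h.tendsto_atTop_zero.comp (tendsto_id.const_mul_atTop' (by norm_num : 0 < 2))
  have h2 : ∀ k, 1 ≤ c (2 * k) := by
    intro k
    rw [c_even, inv_mul_eq_div, le_div_iff₀ (by exact_mod_cast L_pos k), one_mul]
    exact_mod_cast (M_gt k).le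
  have h3 := ge_of_tendsto' h1 h2
  norm_num at h3

lemma not_sum_log : ¬ Summable fun k => c k * (-(v k * Real.log (v k))) := by
  intro h
  have h1 : Tendsto (fun k => c (2 * k) * (-(v (2 * k) * Real.log (v (2 * k))))) atTop (𝓝 0) :=
    h.tendsto_atTop_zero.comp (tendsto_id.const_mul_atTop' (by norm_num : 0 < 2))
  have h2 : ∀ k, c (2 * k) * (-(v (2 * k) * Real.log (v (2 * k)))) = Real.log 2 := by
    intro k
    have e : c (2 * k) * (-(v (2 * k) * Real.log (v (2 * k)))) =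
      (c (2 * k) * v (2 * k)) * (- Real.log (v (2 * k))) := by ring
    rw [e, cv_even, v_even, w, Real.log_inv, neg_neg, M]
    push_cast
    rw [Real.log_pow]
    have : ((L k : ℕ) : ℝ) ≠ 0 := by exact_mod_cast (L_pos k).ne'
    field_simp
  simp_rw [h2] at h1
  have h3 := tendsto_nhds_unique h1 tendsto_const_nhds
  have h4 := Real.log_pos (show (1 : ℝ) < 2 by norm_num)
  linarith

/-- the kind used against the level `y` -/
noncomputable def m (y : ℕ) : ℕ := 2 * l y + 1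

lemma pp_ge (y : ℕ) : (1 / 4) * (1 / 2 : ℝ) ^ l y ≤ pp c v (m y) y := by
  unfold pp m
  rw [c_odd, v_odd]
  have hM : (0 : ℝ) < M (l y) := by exact_mod_cast M_pos (l y)
  have hc0 : (0 : ℝ) < (1 / 2) ^ l y := by positivity
  have hc1 : ((1 : ℝ) / 2) ^ l y ≤ 1 := pow_le_one₀ (by norm_num) (by norm_num)
  generalize hc : ((1 : ℝ) / 2) ^ l y = x at *
  have h1 : x / 2 ≤ 1 - Real.exp (-x) := by
    have h2 : 1 + x ≤ Real.exp x := by linarith [Real.add_one_le_exp x]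
    have h3 : Real.exp (-x) ≤ (1 + x)⁻¹ := by
      rw [Real.exp_neg]
      exact inv_anti₀ (by linarith) h2
    have h4 : (1 + x)⁻¹ ≤ 1 - x / 2 := by
      rw [inv_le_iff_one_le_mul₀ (by linarith)]
      nlinarith
    linarith
  have h5 : (1 : ℝ) / 2 ≤ (1 - w (l y) / 2) ^ (y + 1) := by
    have hB := one_add_mul_le_pow (show (-2 : ℝ) ≤ -(w (l y) / 2) by linarith [w_le (l y)]) (y + 1)
    have h6 : ((y + 1 : ℕ) : ℝ) * w (l y) ≤ 1 := by
      unfold w
      rw [mul_inv_le_iff₀ hM, one_mul]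
      exact_mod_cast l_spec y
    have e : (1 + -(w (l y) / 2)) = 1 - w (l y) / 2 := by ring
    rw [e] at hB
    nlinarith
  calc 1 / 4 * x = (x / 2) * (1 / 2) := by ring
    _ ≤ _ := mul_le_mul h1 h5 (by norm_num) (by linarith)

lemma pp_inv (k y : ℕ) : 1 / pp c v (m y) y ≤ 4 * (2 ^ k * (1 + (y : ℝ) / M k)) := by
  have h := pp_ge y
  have h0 : (0 : ℝ) < (1 / 4) * (1 / 2 : ℝ) ^ l y := by positivity
  calc 1 / pp c v (m y) y ≤ 1 / ((1 / 4) * (1 / 2 : ℝ) ^ l y) := one_div_le_one_div_of_le h0 h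
    _ = 4 * 2 ^ l y := by
      rw [one_div_pow]; field_simp
    _ ≤ _ := by
      have := two_pow_l k y
      linarith

/-- the terms -/
noncomputable def T (k y : ℕ) : ℝ :=
  c k * v k * (v k * (1 - v k) ^ (y + 1) / pp c v (m (y + 1)) (y + 1))

lemma T_le (n k y : ℕ) : T n y ≤
    c n * v n * (v n * (1 - v n) ^ (y + 1) * (4 * (2 ^ k * (1 + ((y + 1 : ℕ) : ℝ) / M k)))) := by
  unfold T
  have h := pp_inv k (y + 1)
  have hv := v_mem n
  have hc := c_pos n
  have hx : 0 ≤ v n * (1 - v n) ^ (y + 1) := mul_nonneg hv.1.le (pow_nonneg (by linarith) _)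
  have hcv : 0 ≤ c n * v n := (mul_pos hc hv.1).le
  apply mul_le_mul_of_nonneg_left _ hcv
  rw [div_eq_mul_one_div]
  exact mul_le_mul_of_nonneg_left h hx

lemma small (k : ℕ) : ∑' y, ENNReal.ofReal (T (2 * k) y) ≤
    ENNReal.ofReal ((1 / 8) * (1 / 2) ^ k) := by
  set r : ℝ := 1 - w k with hr
  have hw := w_pos k
  have hw' := w_le k
  have hr0 : 0 ≤ r := by linarith
  have hr1 : r < 1 := by linarith
  set C : ℝ := ((L k : ℕ) : ℝ)⁻¹ * 4 * 2 ^ k with hC
  have hC0 : 0 ≤ C := by positivity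
  have hM : (0 : ℝ) < M k := by exact_mod_cast M_pos k
  set f : ℕ → ℝ := fun Y => C * (w k * (r ^ Y) + w k * w k * (Y * r ^ Y)) with hf
  have hf0 : ∀ Y, 0 ≤ f Y := fun Y => by simp only [hf]; positivity
  have h1 : HasSum (fun n : ℕ => r ^ n) (1 - r)⁻¹ := hasSum_geometric_of_lt_one hr0 hr1
  have h2 : HasSum (fun n : ℕ => (n : ℝ) * r ^ n) (r / (1 - r) ^ 2) :=
    hasSum_coe_mul_geometric_of_norm_lt_one (by rwa [Real.norm_of_nonneg hr0])
  have h3 : HasSum f (C * (w k * (1 - r)⁻¹ + w k * w k * (r / (1 - r) ^ 2))) :=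
    ((h1.mul_left _).add (h2.mul_left _)).mul_left _
  have hT : ∀ y, T (2 * k) y ≤ f (y + 1) := by
    intro y
    refine (T_le (2 * k) k y).trans (le_of_eq ?_)
    rw [cv_even, v_even]
    simp only [hf, hC, hr]
    have : (1 : ℝ) / M k = w k := by unfold w; rw [one_div]
    rw [div_eq_mul_one_div, this]
    push_cast
    ring
  calc ∑' y, ENNReal.ofReal (T (2 * k) y) ≤ ∑' y, ENNReal.ofReal (f (y + 1)) :=
        ENNReal.tsum_le_tsum fun y => ENNReal.ofReal_le_ofReal (hT y)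
    _ ≤ ∑' y, ENNReal.ofReal (f y) :=
        ENNReal.tsum_comp_le_tsum_of_injective (add_left_injective 1) (fun y => ENNReal.ofReal (f y))
    _ = ENNReal.ofReal (∑' y, f y) := (ENNReal.ofReal_tsum_of_nonneg hf0 h3.summable).symm
    _ ≤ _ := by
        rw [h3.tsum_eq]
        apply ENNReal.ofReal_le_ofReal
        have e1 : 1 - r = w k := by rw [hr]; ring
        rw [e1]
        have e2 : w k * (w k)⁻¹ + w k * w k * (r / w k ^ 2) = 1 + r := by
          field_simp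
        rw [e2, hC, L_real]
        have e3 : (1 : ℝ) / 64 * (1 / 4) ^ k * 4 * 2 ^ k = (1 / 16) * (1 / 2) ^ k := by
          have : ((1 : ℝ) / 4) ^ k * 2 ^ k = (1 / 2) ^ k := by
            rw [← mul_pow]; norm_num
          rw [← this]; ring
        rw [e3]
        have : (0 : ℝ) < (1 / 2) ^ k := by positivity
        nlinarith

lemma big (k : ℕ) : ∑' y, ENNReal.ofReal (T (2 * k + 1) y) ≤
    ENNReal.ofReal ((1 / 8) * (1 / 2) ^ k) := by
  have hw := w_pos k
  have hw' := w_le k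
  set C : ℝ := (1 / 2) ^ k with hC
  have hC0 : 0 < C := by positivity
  set f : ℕ → ℝ := fun y => C * 4 * w k * (w k) ^ y with hf
  have hf0 : ∀ Y, 0 ≤ f Y := fun Y => by simp only [hf]; positivity
  have h3 : HasSum f (C * 4 * w k * (1 - w k)⁻¹) :=
    (hasSum_geometric_of_lt_one hw.le (by linarith)).mul_left _
  have hT : ∀ y, T (2 * k + 1) y ≤ f y := by
    intro y
    refine (T_le (2 * k + 1) 0 y).trans ?_
    rw [c_odd, v_odd, ← hC]
    have hM : (1 : ℝ) ≤ M 0 := by exact_mod_cast M_pos 0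
    have h4 : 1 + ((y + 1 : ℕ) : ℝ) / M 0 ≤ 2 ^ (y + 1) := by
      have h5 : ((y + 1 : ℕ) : ℝ) / M 0 ≤ (y + 1 : ℕ) := div_le_self (by positivity) hM
      have h6 : ((y + 1 + 1 : ℕ) : ℝ) ≤ 2 ^ (y + 1) := by
        exact_mod_cast (Nat.lt_two_pow_self : y + 1 < 2 ^ (y + 1))
      push_cast at *
      linarith
    have hb0 : 0 ≤ 1 - w k / 2 := by linarith
    have hb1 : 1 - w k / 2 ≤ 1 := by linarith
    have e : 1 - (1 - w k / 2) = w k / 2 := by ring
    rw [e]
    calc C * (1 - w k / 2) * ((1 - w k / 2) * (w k / 2) ^ (y + 1) *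
          (4 * (2 ^ 0 * (1 + ((y + 1 : ℕ) : ℝ) / M 0))))
        ≤ C * 1 * (1 * (w k / 2) ^ (y + 1) * (4 * (2 ^ 0 * 2 ^ (y + 1)))) := by gcongr
      _ = C * 4 * ((w k / 2) ^ (y + 1) * 2 ^ (y + 1)) := by ring
      _ = C * 4 * w k ^ (y + 1) := by
          rw [← mul_pow]; congr 2; ring
      _ = f y := by simp only [hf]; ring
  calc ∑' y, ENNReal.ofReal (T (2 * k + 1) y) ≤ ∑' y, ENNReal.ofReal (f y) :=
        ENNReal.tsum_le_tsum fun y => ENNReal.ofReal_le_ofReal (hT y)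
    _ = ENNReal.ofReal (∑' y, f y) := (ENNReal.ofReal_tsum_of_nonneg hf0 h3.summable).symm
    _ ≤ _ := by
        rw [h3.tsum_eq]
        apply ENNReal.ofReal_le_ofReal
        have h5 : (1 - w k)⁻¹ ≤ 2 := by
          rw [inv_le_iff_one_le_mul₀ (by linarith)]
          linarith
        have h6 : w k * (1 - w k)⁻¹ ≤ (1 / 64) * 2 :=
          mul_le_mul hw' h5 (by rw [inv_nonneg]; linarith) (by norm_num)
        calc C * 4 * w k * (1 - w k)⁻¹ = C * 4 * (w k * (1 - w k)⁻¹) := by ring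
          _ ≤ C * 4 * ((1 / 64) * 2) := by gcongr
          _ = 1 / 8 * C := by ring

lemma total : ∑' (k : ℕ) (y : ℕ), ENNReal.ofReal (T k y) < 1 := by
  have hg : ∑' k : ℕ, ENNReal.ofReal ((1 / 8 : ℝ) * (1 / 2) ^ k) = ENNReal.ofReal (1 / 4) := by
    have h : HasSum (fun k : ℕ => (1 / 8 : ℝ) * (1 / 2) ^ k) (1 / 8 * (1 - 1 / 2)⁻¹) :=
      (hasSum_geometric_of_lt_one (by norm_num) (by norm_num)).mul_left _
    rw [← ENNReal.ofReal_tsum_of_nonneg (fun k => by positivity) h.summable, h.tsum_eq]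
    norm_num
  rw [← tsum_even_add_odd ENNReal.summable ENNReal.summable]
  calc (∑' k, ∑' y, ENNReal.ofReal (T (2 * k) y)) + ∑' k, ∑' y, ENNReal.ofReal (T (2 * k + 1) y)
      ≤ ENNReal.ofReal (1 / 4) + ENNReal.ofReal (1 / 4) := by
        apply add_le_add
        · rw [← hg]; exact ENNReal.tsum_le_tsum small
        · rw [← hg]; exact ENNReal.tsum_le_tsum big
    _ = ENNReal.ofReal (1 / 2) := by
        rw [← ENNReal.ofReal_add (by norm_num) (by norm_num)]; norm_num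
    _ < 1 := by
        rw [ENNReal.ofReal_lt_one]; norm_num

end Pool.Agent.R946.LF.PG

namespace Pool.Agent.R946.LF

/-- LF-G. -/
theorem stmG : StmG :=
  ⟨PG.c, PG.v, PG.m, PG.c_pos, PG.v_mem, PG.v_inj, PG.sum_cv, PG.not_sum_c, PG.not_sum_log,
    PG.total⟩

end Pool.Agent.R946.LF
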