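import Pool.Agent.R946.LF.Stm

namespace Pool.Agent.R946.LF

open MeasureTheory ProbabilityTheory
open scoped ENNReal NNReal

theorem h_q_sum (c : ℝ) (hc : 0 < c) :
    ∑' n : ℕ, ENNReal.ofReal (Real.exp (-c) * c ^ n / (n.factorial : ℝ)) = 1 := by
  have h := hasSum_one_poissonMeasure (⟨c, hc.le⟩ : ℝ≥0)
  have h2 : HasSum (fun n : ℕ => Real.exp (-c) * c ^ n / (n.factorial : ℝ)) 1 := h
  rw [← ENNReal.ofReal_tsum_of_nonneg (fun n => by positivity) h2.summable, h2.tsum_eq,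
    ENNReal.ofReal_one]

theorem h_q_mean (c : ℝ) (hc : 0 < c) :
    ∑' n : ℕ, (n : ℝ≥0∞) * ENNReal.ofReal (Real.exp (-c) * c ^ n / (n.factorial : ℝ)) =
      ENNReal.ofReal c := by
  rw [tsum_eq_zero_add' ENNReal.summable]
  have h1 : ∀ n : ℕ, ((n + 1 : ℕ) : ℝ≥0∞) *
      ENNReal.ofReal (Real.exp (-c) * c ^ (n + 1) / ((n + 1).factorial : ℝ)) =
      ENNReal.ofReal c * ENNReal.ofReal (Real.exp (-c) * c ^ n / (n.factorial : ℝ)) := by
    intro n
    rw [← ENNReal.ofReal_natCast, ← ENNReal.ofReal_mul (by positivity),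
      ← ENNReal.ofReal_mul hc.le]
    congr 1
    rw [Nat.factorial_succ]
    have : (n.factorial : ℝ) ≠ 0 := by positivity
    push_cast
    field_simp
    ring
  rw [tsum_congr h1, ENNReal.tsum_mul_left, h_q_sum c hc]
  simp

theorem stmH : StmH := by
  intro c v hc hv hcv Ω _ P _ Z
  -- presence of the atoms
  have hpres : ∀ k i, ∑' j, P {ω | pres (Z.W ω) (k, i, j)} ≤ ENNReal.ofReal (c k) := by
    intro k i
    have h1 : ∀ j, P {ω | pres (Z.W ω) (k, i, j)} ≤
        ∑' n : ℕ, if j < n then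
          ENNReal.ofReal (Real.exp (-c k) * c k ^ n / (n.factorial : ℝ)) else 0 := by
      intro j
      have e : {ω | pres (Z.W ω) (k, i, j)} =
          ⋃ n : ℕ, {ω | j < n ∧ (Z.W ω).N k i = n} := by
        ext ω
        simp only [Set.mem_ofPred_eq, Set.mem_iUnion, pres]
        constructor
        · intro h
          exact ⟨_, h, rfl⟩
        · rintro ⟨n, h, rfl⟩
          exact h
      rw [e]
      refine (measure_iUnion_le _).trans (ENNReal.tsum_le_tsum fun n => ?_)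
      split_ifs with h
      · rw [← Z.lawN k i n]
        exact measure_mono fun ω hω => hω.2
      · simp [h]
    refine (ENNReal.tsum_le_tsum h1).trans ?_
    rw [ENNReal.tsum_comm, ← h_q_mean (c k) (hc k)]
    refine ENNReal.tsum_le_tsum fun n => ?_
    rw [tsum_eq_sum (s := Finset.range n) (fun j hj => by
      rw [Finset.mem_range] at hj
      rw [if_neg hj])]
    rw [Finset.sum_congr rfl (fun j hj => if_pos (Finset.mem_range.1 hj)), Finset.sum_const,
      Finset.card_range, nsmul_eq_mul]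
  -- participation of one level is independent of presence
  have hind : ∀ (a : Atom) (y : ℕ), P {ω | pres (Z.W ω) a ∧ (Z.W ω).B a y = true} =
      P {ω | pres (Z.W ω) a} * ENNReal.ofReal (v a.1) := by
    intro a y
    have hne : (Sum.inl (a.1, a.2.1) : Idx) ≠ Sum.inr (Sum.inr (Sum.inl (a, y))) := by simp
    have h := (Z.indep.indepFun hne).measure_inter_preimage_eq_mul (Set.Ioi (a.2.2 : ℝ)) {1}
      measurableSet_Ioi (measurableSet_singleton _)
    have e1 : (fun ω => code (Z.W ω) (Z.U ω) (Sum.inl (a.1, a.2.1))) ⁻¹' Set.Ioi (a.2.2 : ℝ) =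
        {ω | pres (Z.W ω) a} := by
      ext ω
      simp [code, pres]
    have e2 : (fun ω => code (Z.W ω) (Z.U ω) (Sum.inr (Sum.inr (Sum.inl (a, y))))) ⁻¹' {1} =
        {ω | (Z.W ω).B a y = true} := by
      ext ω
      simp [code]
    rw [e1, e2, Z.lawB a y] at h
    exact h
  -- the main estimate
  have hmain : ∀ x i : ℕ, ∀ᵐ ω ∂P,
      {p : ℕ × ℕ | pres (Z.W ω) (p.1, i, p.2) ∧ Rel ((Z.W ω).B (p.1, i, p.2)) x}.Finite := by
    intro x i
    have hb : ∀ p : ℕ × ℕ,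
        P {ω | pres (Z.W ω) (p.1, i, p.2) ∧ Rel ((Z.W ω).B (p.1, i, p.2)) x} ≤
        (x + 1 : ℕ) * (P {ω | pres (Z.W ω) (p.1, i, p.2)} * ENNReal.ofReal (v p.1)) := by
      intro p
      have hsub : {ω | pres (Z.W ω) (p.1, i, p.2) ∧ Rel ((Z.W ω).B (p.1, i, p.2)) x} ⊆
          ⋃ y ∈ Finset.range (x + 1),
            {ω | pres (Z.W ω) (p.1, i, p.2) ∧ (Z.W ω).B (p.1, i, p.2) y = true} := by
        rintro ω ⟨h1, h2⟩
        have h3 : 0 < Nat.count (fun y => (Z.W ω).B (p.1, i, p.2) y = true) (x + 1) :=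
          lt_of_lt_of_le (by norm_num) h2
        rw [Nat.count_eq_card_filter_range, Finset.card_pos] at h3
        obtain ⟨y, hy⟩ := h3
        rw [Finset.mem_filter] at hy
        exact Set.mem_biUnion (x := y) (Finset.mem_coe.2 hy.1) ⟨h1, hy.2⟩
      refine (measure_mono hsub).trans ((measure_biUnion_finset_le _ _).trans ?_)
      rw [Finset.sum_congr rfl (fun y _ => hind (p.1, i, p.2) y), Finset.sum_const,
        Finset.card_range, nsmul_eq_mul]
    have hfin : ∑' p : ℕ × ℕ,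
        P {ω | pres (Z.W ω) (p.1, i, p.2) ∧ Rel ((Z.W ω).B (p.1, i, p.2)) x} ≠ ∞ := by
      refine ne_top_of_le_ne_top ?_ (ENNReal.tsum_le_tsum hb)
      rw [ENNReal.tsum_prod', ← lt_top_iff_ne_top]
      have h5 : ∀ k : ℕ, ∑' j : ℕ, ((x + 1 : ℕ) : ℝ≥0∞) *
          (P {ω | pres (Z.W ω) (k, i, j)} * ENNReal.ofReal (v k)) ≤
          ((x + 1 : ℕ) : ℝ≥0∞) * ENNReal.ofReal (c k * v k) := by
        intro k
        rw [ENNReal.tsum_mul_left, ENNReal.tsum_mul_right, ENNReal.ofReal_mul (hc k).le]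
        gcongr
        exact hpres k i
      refine lt_of_le_of_lt (ENNReal.tsum_le_tsum h5) ?_
      rw [ENNReal.tsum_mul_left]
      refine ENNReal.mul_lt_top (ENNReal.natCast_lt_top _) ?_
      rw [← ENNReal.ofReal_tsum_of_nonneg (fun k => (mul_pos (hc k) (hv k).1).le) hcv]
      exact ENNReal.ofReal_lt_top
    exact ae_finite_setOfPred_mem hfin
  have hall : ∀ᵐ ω ∂P, ∀ x i : ℕ,
      {p : ℕ × ℕ | pres (Z.W ω) (p.1, i, p.2) ∧ Rel ((Z.W ω).B (p.1, i, p.2)) x}.Finite := by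
    rw [ae_all_iff]
    intro x
    rw [ae_all_iff]
    exact hmain x
  filter_upwards [hall] with ω hω t x
  refine Set.Finite.subset (Set.Finite.biUnion (Set.finite_Iic ⌊t⌋₊) fun i _ =>
    (hω x i).image (fun p : ℕ × ℕ => ((p.1, i, p.2) : Atom))) ?_
  rintro ⟨k, i, j⟩ ⟨h1, h2, h3⟩
  simp only [Set.mem_iUnion]
  refine ⟨i, ?_, (k, j), ⟨h1, h3⟩, rfl⟩
  have h4 := (Z.V_mem (k, i, j) ω).1
  have h5 : (i : ℝ) ≤ t := by
    have : (i : ℝ) + (Z.W ω).V (k, i, j) ≤ t := h2
    linarith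
  exact Nat.le_floor h5

end Pool.Agent.R946.LF
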