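import Pool.Agent.R946.LF.Stm

/-!
LF-I: the noise exists, on an infinite product of copies of the real line.
-/

namespace Pool.Agent.R946.LF

open MeasureTheory ProbabilityTheory
open scoped ENNReal NNReal

namespace PieceI

/-- The laws of the coordinates. -/
noncomputable def mu (c v : ℕ → ℝ) : Idx → Measure ℝ
  | .inl p => (poissonMeasure (c p.1).toNNReal).map (Nat.cast : ℕ → ℝ)
  | .inr (.inl _) => volume.restrict (Set.Ico (0 : ℝ) 1)
  | .inr (.inr (.inl p)) => ENNReal.ofReal (v p.1.1) • Measure.dirac (1 : ℝ) +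
      ENNReal.ofReal (1 - v p.1.1) • Measure.dirac (0 : ℝ)
  | .inr (.inr (.inr _)) => volume.restrict (Set.Icc (0 : ℝ) 1)

lemma mu_prob (c v : ℕ → ℝ) (hv : ∀ k, 0 < v k ∧ v k < 1) (s : Idx) :
    IsProbabilityMeasure (mu c v s) := by
  rcases s with p | a | p | n
  · simp only [mu]
    infer_instance
  · simp only [mu]
    exact ⟨by simp⟩
  · simp only [mu]
    constructor
    have h1 := (hv p.1.1).1.le
    have h2 : 0 ≤ 1 - v p.1.1 := by linarith [(hv p.1.1).2]
    simp only [Measure.coe_add, Measure.coe_smul, Pi.add_apply, Pi.smul_apply,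
      measure_univ, smul_eq_mul, mul_one]
    rw [← ENNReal.ofReal_add h1 h2]
    simp
  · simp only [mu]
    exact ⟨by simp⟩

/-- The modification of the coordinates. -/
noncomputable def hh : Idx → ℝ → ℝ
  | .inl _ => fun x => (⌊x⌋₊ : ℝ)
  | .inr (.inl _) => fun x => if x ∈ Set.Ico (0 : ℝ) 1 then x else 0
  | .inr (.inr (.inl _)) => fun x => if x = 1 then 1 else 0
  | .inr (.inr (.inr _)) => fun x => x

lemma hh_meas (s : Idx) : Measurable (hh s) := by
  rcases s with p | a | p | n
  · simp only [hh]
    exact measurable_from_nat.comp Nat.measurable_floor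
  · simp only [hh]
    exact Measurable.ite measurableSet_Ico measurable_id measurable_const
  · simp only [hh]
    exact Measurable.ite (measurableSet_singleton (1 : ℝ)) measurable_const measurable_const
  · simp only [hh]
    exact measurable_id

/-- The paths. -/
noncomputable def ww (ω : Idx → ℝ) : Path where
  N := fun k i => ⌊ω (.inl (k, i))⌋₊
  V := fun a => hh (.inr (.inl a)) (ω (.inr (.inl a)))
  B := fun a x => decide (ω (.inr (.inr (.inl (a, x)))) = 1)

/-- The initial types. -/
def uu (ω : Idx → ℝ) : ℕ → ℝ := fun n => ω (.inr (.inr (.inr n)))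

lemma code_eq (ω : Idx → ℝ) (s : Idx) : code (ww ω) (uu ω) s = hh s (ω s) := by
  rcases s with p | a | p | n
  · simp [code, ww, hh]
  · simp [code, ww, hh]
  · simp [code, ww, hh]
  · simp [code, uu, hh]

end PieceI

open PieceI in
/-- LF-I. -/
theorem stmI : StmI := by
  intro c v hc hv
  have hprob : ∀ s, IsProbabilityMeasure (mu c v s) := mu_prob c v hv
  refine ⟨Idx → ℝ, inferInstance, Measure.infinitePi (mu c v), inferInstance, ⟨?_⟩⟩
  have key : ∀ (s : Idx) (g : ℝ → ℝ), Measurable g →
      (Measure.infinitePi (mu c v)).map (fun ω => g (ω s)) = (mu c v s).map g := by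
    intro s g hg
    have h1 := Measure.infinitePi_map_eval (mu c v) s
    rw [← h1, Measure.map_map hg (measurable_pi_apply s)]
    rfl
  have keyset : ∀ (s : Idx) (A : Set ℝ), MeasurableSet A →
      Measure.infinitePi (mu c v) {ω | ω s ∈ A} = mu c v s A := by
    intro s A hA
    have h1 := Measure.infinitePi_map_eval (mu c v) s
    rw [← h1, Measure.map_apply (measurable_pi_apply s) hA]
    rfl
  refine
    { W := ww
      U := uu
      meas := ?_
      lawN := ?_
      V_mem := ?_
      lawV := ?_
      lawB := ?_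
      lawU := ?_
      indep := ?_ }
  · intro s
    simp only [code_eq]
    exact (hh_meas s).comp (measurable_pi_apply s)
  · intro k i n
    have hset : {ω : Idx → ℝ | (ww ω).N k i = n} =
        {ω | ω (.inl (k, i)) ∈ (fun x : ℝ => ⌊x⌋₊) ⁻¹' {n}} := by
      ext ω
      simp [ww]
    rw [hset, keyset _ _ (Nat.measurable_floor (measurableSet_singleton n))]
    simp only [mu]
    rw [Measure.map_apply (measurable_from_nat)
      (Nat.measurable_floor (measurableSet_singleton n))]
    have h2 : (Nat.cast : ℕ → ℝ) ⁻¹' ((fun x : ℝ => ⌊x⌋₊) ⁻¹' {n}) = {n} := by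
      ext m
      simp
    rw [h2, poissonMeasure_singleton]
    rw [Real.coe_toNNReal _ (hc k).le]
  · intro a ω
    simp only [ww, hh]
    split_ifs with h
    · exact h
    · simp
  · intro a
    have h1 : (fun ω : Idx → ℝ => (ww ω).V a) =
        fun ω => hh (.inr (.inl a)) (ω (.inr (.inl a))) := rfl
    rw [h1, key _ _ (hh_meas _)]
    simp only [mu]
    have h2 : hh (.inr (.inl a)) =ᵐ[volume.restrict (Set.Ico (0 : ℝ) 1)] id := by
      filter_upwards [ae_restrict_mem measurableSet_Ico] with x hx
      simp only [hh, id, if_pos hx]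
    rw [Measure.map_congr h2, Measure.map_id]
  · intro a x
    have hset : {ω : Idx → ℝ | (ww ω).B a x = true} =
        {ω | ω (.inr (.inr (.inl (a, x)))) ∈ ({1} : Set ℝ)} := by
      ext ω
      simp [ww]
    rw [hset, keyset _ _ (measurableSet_singleton 1)]
    simp only [mu]
    simp
  · intro n
    have h1 : (fun ω : Idx → ℝ => uu ω n) = fun ω => id (ω (.inr (.inr (.inr n)))) := rfl
    rw [h1, key _ _ measurable_id, Measure.map_id]
    rfl
  · simp only [code_eq]
    exact iIndepFun_infinitePi (P := mu c v) (X := hh) hh_meas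

end Pool.Agent.R946.LF
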