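import Pool.Agent.R946.LF.Stm

/-!
# LF-J (helper451): the types are almost surely distinct; the mean of the Poisson variable
-/

namespace Pool.Agent.R946.LF

open MeasureTheory ProbabilityTheory
open scoped ENNReal NNReal

namespace JAux

variable {c v : ℕ → ℝ} {Ω : Type} [MeasurableSpace Ω] {P : Measure Ω}

lemma measN (Z : Noise c v P) (k i : ℕ) : Measurable fun ω => ((Z.W ω).N k i : ℝ) :=
  Z.meas (Sum.inl (k, i))

lemma measU (Z : Noise c v P) (n : ℕ) : Measurable fun ω => Z.U ω n :=
  Z.meas (Sum.inr (Sum.inr (Sum.inr n)))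

lemma measEq (Z : Noise c v P) (k i n : ℕ) : MeasurableSet {ω | (Z.W ω).N k i = n} := by
  have h : {ω | (Z.W ω).N k i = n} = (fun ω => ((Z.W ω).N k i : ℝ)) ⁻¹' {(n : ℝ)} := by
    ext ω
    simp
  rw [h]
  exact measN Z k i (measurableSet_singleton _)

lemma measLt (Z : Noise c v P) (k i j : ℕ) : MeasurableSet {ω | j < (Z.W ω).N k i} := by
  have h : {ω | j < (Z.W ω).N k i} = (fun ω => ((Z.W ω).N k i : ℝ)) ⁻¹' (Set.Ioi (j : ℝ)) := by
    ext ω
    simp
  rw [h]
  exact measN Z k i measurableSet_Ioi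

lemma tail (Z : Noise c v P) (k i j : ℕ) : P {ω | j < (Z.W ω).N k i} =
    ∑' n : ℕ, if j < n then P {ω | (Z.W ω).N k i = n} else 0 := by
  have h : {ω | j < (Z.W ω).N k i} = ⋃ n : ℕ, {ω | (Z.W ω).N k i = n ∧ j < n} := by
    ext ω
    simp
  have hm : ∀ n : ℕ, MeasurableSet {ω | (Z.W ω).N k i = n ∧ j < n} := by
    intro n
    by_cases hj : j < n
    · simpa [hj] using measEq Z k i n
    · simp [hj]
  rw [h, measure_iUnion ?_ hm]
  · refine tsum_congr fun n => ?_
    by_cases hj : j < n
    · simp [hj]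
    · simp [hj]
  · intro n m hnm
    change Disjoint _ _
    rw [Set.disjoint_left]
    rintro ω ⟨h1, -⟩ ⟨h2, -⟩
    exact hnm (h1.symm.trans h2)

lemma sum_real (x : ℝ) :
    HasSum (fun m : ℕ => x * (Real.exp (-x) * x ^ m / (m.factorial : ℝ))) x := by
  have h1 : HasSum (fun m : ℕ => x ^ m / (m.factorial : ℝ)) (Real.exp x) := by
    rw [Real.exp_eq_exp_ℝ]
    exact NormedSpace.expSeries_div_hasSum_exp x
  have h2 := h1.mul_left (x * Real.exp (-x))
  have h3 : x * Real.exp (-x) * Real.exp x = x := by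
    rw [mul_assoc, ← Real.exp_add]
    simp
  rw [h3] at h2
  refine h2.congr_fun fun m => ?_
  ring

end JAux

open JAux in
theorem stmJ : StmJ := by
  intro c v hc Ω _ P _ Z
  refine ⟨?_, ?_, ?_⟩
  · -- distinct types
    have key : ∀ n m : ℕ, n ≠ m → ∀ᵐ ω ∂P, Z.U ω n ≠ Z.U ω m := by
      intro n m hnm
      have hind : IndepFun (fun ω => Z.U ω n) (fun ω => Z.U ω m) P :=
        Z.indep.indepFun (i := Sum.inr (Sum.inr (Sum.inr n))) (j := Sum.inr (Sum.inr (Sum.inr m)))
          (by simpa using hnm)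
      have hjoint := (indepFun_iff_map_prod_eq_prod_map_map (measU Z n).aemeasurable
        (measU Z m).aemeasurable).1 hind
      rw [Z.lawU n, Z.lawU m] at hjoint
      have hdiag : MeasurableSet {p : ℝ × ℝ | p.1 = p.2} := measurableSet_eq_fun
        measurable_fst measurable_snd
      have h1 : P {ω | Z.U ω n = Z.U ω m} = 0 := by
        have h2 : {ω | Z.U ω n = Z.U ω m} =
            (fun ω => (Z.U ω n, Z.U ω m)) ⁻¹' {p : ℝ × ℝ | p.1 = p.2} := rfl
        rw [h2, ← Measure.map_apply ((measU Z n).prodMk (measU Z m)) hdiag, hjoint,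
          Measure.prod_apply hdiag]
        have h3 : ∀ x : ℝ, (volume.restrict (Set.Icc (0 : ℝ) 1))
            (Prod.mk x ⁻¹' {p : ℝ × ℝ | p.1 = p.2}) = 0 := by
          intro x
          have h4 : Prod.mk x ⁻¹' {p : ℝ × ℝ | p.1 = p.2} = {x} := by
            ext y
            simp [eq_comm]
          rw [h4]
          exact measure_singleton x
        simp [h3]
      rw [ae_iff]
      simpa using h1
    have hall : ∀ᵐ ω ∂P, ∀ n m : ℕ, n ≠ m → Z.U ω n ≠ Z.U ω m := by
      rw [ae_all_iff]
      intro n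
      rw [ae_all_iff]
      intro m
      by_cases hnm : n = m
      · exact Filter.Eventually.of_forall fun ω h => absurd hnm h
      · filter_upwards [key n m hnm] with ω hω _ using hω
    filter_upwards [hall] with ω hω n m hnm
    by_contra hcon
    exact hω n m hcon hnm
  · -- the mean
    intro k i
    have h1 : ∀ j, P {ω | pres (Z.W ω) (k, i, j)} =
        ∑' n : ℕ, if j < n then P {ω | (Z.W ω).N k i = n} else 0 := fun j => tail Z k i j
    simp only [h1]
    rw [ENNReal.tsum_comm]
    have h2 : ∀ n : ℕ, ∑' j : ℕ, (if j < n then P {ω | (Z.W ω).N k i = n} else 0) =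
        (n : ℝ≥0∞) * P {ω | (Z.W ω).N k i = n} := by
      intro n
      rw [tsum_eq_sum (s := Finset.range n)]
      · rw [Finset.sum_congr rfl fun j hj => if_pos (Finset.mem_range.1 hj)]
        simp
      · intro j hj
        exact if_neg fun h => hj (Finset.mem_range.2 h)
    simp only [h2]
    rw [tsum_eq_zero_add' ENNReal.summable]
    simp only [Nat.cast_zero, zero_mul, zero_add]
    have hck := (hc k).le
    have h3 : ∀ m : ℕ, ((m + 1 : ℕ) : ℝ≥0∞) * P {ω | (Z.W ω).N k i = m + 1} =
        ENNReal.ofReal (c k * (Real.exp (-c k) * c k ^ m / (m.factorial : ℝ))) := by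
      intro m
      rw [Z.lawN, ← ENNReal.ofReal_natCast, ← ENNReal.ofReal_mul (by positivity)]
      congr 1
      rw [Nat.factorial_succ]
      push_cast
      field_simp
      ring
    simp only [h3]
    have h4 := sum_real (c k)
    rw [← ENNReal.ofReal_tsum_of_nonneg (fun m => by positivity) h4.summable, h4.tsum_eq]
  · intro a
    exact measLt Z a.1 a.2.1 a.2.2

end Pool.Agent.R946.LF
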