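import Mathlib

/-!
The measures `Λ` and `ν` for atomic data.
-/

namespace Pool.Agent.R946.LF

open MeasureTheory
open scoped ENNReal

/-- The jump measure `ν(du) = u⁻² Λ(du)`. -/
noncomputable def nuOf (L : Measure ℝ) : Measure ℝ :=
  L.withDensity fun u => ENNReal.ofReal ((u ^ 2)⁻¹)

/-- The intensive regime with dust: `Λ` is a finite measure on `[0,1]` with `Λ({0}) = 0`,
`∫ u⁻¹ Λ(du) < ∞` and `∫ u⁻² Λ(du) = ∞`. -/
def DustRegime (L : Measure ℝ) : Prop :=
  IsFiniteMeasure L ∧ L (Set.Icc 0 1)ᶜ = 0 ∧ L {0} = 0 ∧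
    ∫⁻ u, ENNReal.ofReal u⁻¹ ∂L < ∞ ∧ ∫⁻ u, ENNReal.ofReal ((u ^ 2)⁻¹) ∂L = ∞

/-- The hypothesis `-∫_{[0,1)} u log u ν(du) = ∞` of the problem. -/
def NoULogU (L : Measure ℝ) : Prop :=
  ∫⁻ u in Set.Ico 0 1, ENNReal.ofReal (-(u * Real.log u)) ∂(nuOf L) = ∞

/-- The atomic measure `∑ₖ c k • δ_{v k}`. -/
noncomputable def atomic (c v : ℕ → ℝ) : Measure ℝ :=
  Measure.sum fun k => ENNReal.ofReal (c k) • Measure.dirac (v k)

theorem lintegral_atomic (c v : ℕ → ℝ) (f : ℝ → ℝ≥0∞) (hf : Measurable f) :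
    ∫⁻ u, f u ∂(atomic c v) = ∑' k, ENNReal.ofReal (c k) * f (v k) := by
  unfold atomic
  rw [lintegral_sum_measure]
  refine tsum_congr fun k => ?_
  rw [lintegral_smul_measure, lintegral_dirac' _ hf, smul_eq_mul]

theorem measurable_inv_sq : Measurable fun u : ℝ => ENNReal.ofReal ((u ^ 2)⁻¹) := by
  fun_prop

theorem measurable_ulogu : Measurable fun u : ℝ => ENNReal.ofReal (-(u * Real.log u)) := by
  fun_prop

theorem nuOf_atomic (c v : ℕ → ℝ) (hc : ∀ k, 0 < c k) (hv : ∀ k, 0 < v k ∧ v k < 1) :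
    nuOf (atomic (fun k => c k * v k ^ 2) v) = atomic c v := by
  ext s hs
  unfold nuOf
  rw [withDensity_apply _ hs, ← lintegral_indicator hs,
    lintegral_atomic _ _ _ (measurable_inv_sq.indicator hs),
    ← lintegral_indicator_one hs,
    lintegral_atomic _ _ _ (measurable_one.indicator hs)]
  refine tsum_congr fun k => ?_
  by_cases hk : v k ∈ s
  · rw [Set.indicator_of_mem hk, Set.indicator_of_mem hk, Pi.one_apply, mul_one,
      ← ENNReal.ofReal_mul (by have := hc k; have := (hv k).1; positivity)]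
    congr 1
    have := (hv k).1.ne'
    field_simp
  · rw [Set.indicator_of_notMem hk, Set.indicator_of_notMem hk, mul_zero, mul_zero]

theorem tsum_ofReal_top {f : ℕ → ℝ} (hf : ∀ k, 0 ≤ f k) (h : ¬ Summable f) :
    ∑' k, ENNReal.ofReal (f k) = ∞ := by
  by_contra hne
  apply h
  have := ENNReal.summable_toReal hne
  refine this.congr fun k => ?_
  rw [ENNReal.toReal_ofReal (hf k)]

theorem tsum_ofReal_lt_top {f : ℕ → ℝ} (hf : ∀ k, 0 ≤ f k) (h : Summable f) :
    ∑' k, ENNReal.ofReal (f k) < ∞ := by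
  rw [← ENNReal.ofReal_tsum_of_nonneg hf h]
  exact ENNReal.ofReal_lt_top

theorem regime_atomic (c v : ℕ → ℝ) (hc : ∀ k, 0 < c k) (hv : ∀ k, 0 < v k ∧ v k < 1)
    (h1 : Summable (fun k => c k * v k)) (h2 : ¬ Summable c)
    (h3 : ¬ Summable (fun k => c k * (-(v k * Real.log (v k))))) :
    DustRegime (atomic (fun k => c k * v k ^ 2) v) ∧
      NoULogU (atomic (fun k => c k * v k ^ 2) v) := by
  have hc' : ∀ k, 0 ≤ c k := fun k => (hc k).le
  have hv' : ∀ k, 0 ≤ v k := fun k => (hv k).1.le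
  have hs2 : Summable (fun k => c k * v k ^ 2) := by
    refine Summable.of_nonneg_of_le (fun k => ?_) (fun k => ?_) h1
    · have := hc' k; positivity
    · have h := mul_le_mul_of_nonneg_left (hv k).2.le (mul_nonneg (hc' k) (hv' k))
      calc c k * v k ^ 2 = c k * v k * v k := by ring
        _ ≤ c k * v k * 1 := h
        _ = c k * v k := by ring
  have hnull : ∀ s : Set ℝ, MeasurableSet s → (∀ k, v k ∉ s) →
      ∀ d : ℕ → ℝ, atomic d v s = 0 := by
    intro s hs hsv d
    rw [← lintegral_indicator_one hs,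
      lintegral_atomic _ _ _ (measurable_one.indicator hs)]
    simp only [ENNReal.tsum_eq_zero]
    intro k
    rw [Set.indicator_of_notMem (hsv k), mul_zero]
  refine ⟨⟨⟨?_⟩, ?_, ?_, ?_, ?_⟩, ?_⟩
  · have : atomic (fun k => c k * v k ^ 2) v Set.univ =
        ∑' k, ENNReal.ofReal (c k * v k ^ 2) := by
      rw [← lintegral_one, lintegral_atomic _ _ _ measurable_const]
      simp
    rw [this]
    exact tsum_ofReal_lt_top (fun k => by have := hc' k; positivity) hs2
  · refine hnull _ measurableSet_Icc.compl (fun k => ?_) _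
    simp only [Set.mem_compl_iff, not_not, Set.mem_Icc]
    exact ⟨hv' k, (hv k).2.le⟩
  · refine hnull _ (measurableSet_singleton 0) (fun k => ?_) _
    simp only [Set.mem_singleton_iff]
    exact (hv k).1.ne'
  · rw [lintegral_atomic _ _ _ (by fun_prop)]
    refine lt_of_eq_of_lt (tsum_congr fun k => ?_) (tsum_ofReal_lt_top
      (fun k => mul_nonneg (hc' k) (hv' k)) h1)
    rw [← ENNReal.ofReal_mul (by have := hc' k; positivity)]
    congr 1
    have := (hv k).1.ne'
    field_simp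
  · rw [lintegral_atomic _ _ _ measurable_inv_sq]
    refine Eq.trans (tsum_congr fun k => ?_) (tsum_ofReal_top hc' h2)
    rw [← ENNReal.ofReal_mul (by have := hc' k; positivity)]
    congr 1
    have := (hv k).1.ne'
    field_simp
  · unfold NoULogU
    rw [nuOf_atomic c v hc hv, ← lintegral_indicator measurableSet_Ico,
      lintegral_atomic _ _ _ (measurable_ulogu.indicator measurableSet_Ico)]
    refine Eq.trans (tsum_congr fun k => ?_) (tsum_ofReal_top (f := fun k =>
      c k * (-(v k * Real.log (v k)))) (fun k => ?_) h3)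
    · rw [Set.indicator_of_mem (show v k ∈ Set.Ico (0:ℝ) 1 from ⟨hv' k, (hv k).2⟩),
        ← ENNReal.ofReal_mul (hc' k)]
    · refine mul_nonneg (hc' k) ?_
      rw [← mul_neg]
      exact mul_nonneg (hv' k) (neg_nonneg.2 (Real.log_nonpos (hv' k) (hv k).2.le))

end Pool.Agent.R946.LF
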